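import Pool.Agent.K4H6.SV.B

set_option autoImplicit false

/-! The mean square of the smooth Dirichlet polynomial over all windows. -/

namespace Pool.Agent.K4H6.SV

open Complex MeasureTheory Filter Topology Set Pool.Agent.TH535.SM Pool.Agent.K4H66.OL Pool.Agent.K4H66.HL
open Pool.Agent.R446.KR
open scoped ComplexConjugate FourierTransform ContDiff ENNReal Convolution

noncomputable section

variable {φ : ℝ → ℂ}

/-- comparison of mean squares over an interval -/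
lemma sq_comp {f g : ℝ → ℂ} (hf : Continuous f) (hg : Continuous g) {a b : ℝ} (hab : a ≤ b) {e : ℝ} (he : 0 ≤ e)
    (h : ∫⁻ t in Icc a b, ‖f t - g t‖ₑ ^ 2 ≤ ENNReal.ofReal e) {ε : ℝ} (hε : 0 < ε) (hε1 : ε ≤ 1) :
    |(∫ t in a..b, ‖f t‖ ^ 2) - ∫ t in a..b, ‖g t‖ ^ 2| ≤
      2 * ε * (∫ t in a..b, ‖g t‖ ^ 2) + (2 + 2 * ε⁻¹) * e := by
  have hi : ∀ F : ℝ → ℂ, Continuous F → AEStronglyMeasurable ((Icc a b).indicator F) ∧
      Integrable (fun t => ‖(Icc a b).indicator F t‖ ^ 2) ∧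
      ∫ t, ‖(Icc a b).indicator F t‖ ^ 2 = ∫ t in a..b, ‖F t‖ ^ 2 := by
    intro F hF
    have e1 : (fun t => ‖(Icc a b).indicator F t‖ ^ 2) = (Icc a b).indicator (fun t => ‖F t‖ ^ 2) := by
      funext t
      by_cases ht : t ∈ Icc a b
      · rw [indicator_of_mem ht, indicator_of_mem ht]
      · rw [indicator_of_notMem ht, indicator_of_notMem ht]; simp
    refine ⟨hF.aestronglyMeasurable.indicator measurableSet_Icc, ?_, ?_⟩
    · rw [e1, integrable_indicator_iff measurableSet_Icc]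
      exact (hF.norm.pow 2).continuousOn.integrableOn_Icc
    · rw [e1, integral_indicator measurableSet_Icc, integral_Icc_eq_integral_Ioc,
        ← intervalIntegral.integral_of_le hab]
  obtain ⟨f1, f2, f3⟩ := hi f hf
  obtain ⟨g1, g2, g3⟩ := hi g hg
  have h' : ∫⁻ t, ‖(Icc a b).indicator f t - (Icc a b).indicator g t‖ₑ ^ 2 ≤ ENNReal.ofReal e := by
    refine le_trans (le_of_eq ?_) h
    rw [← lintegral_indicator measurableSet_Icc]
    refine lintegral_congr fun t => ?_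
    by_cases ht : t ∈ Icc a b
    · rw [indicator_of_mem ht, indicator_of_mem ht, indicator_of_mem ht]
    · rw [indicator_of_notMem ht, indicator_of_notMem ht, indicator_of_notMem ht]; simp
  have := sq_abs_diff f1 g1 f2 g2 he h' hε hε1
  rwa [f3, g3] at this

/-- close functions have the same mean squares asymptotically -/
lemma tend_comp {f g : ℝ → ℝ → ℂ} {a b N : ℝ → ℝ} {A : ℝ}
    (hf : ∀ᶠ T in atTop, Continuous (f T)) (hg : ∀ᶠ T in atTop, Continuous (g T)) (hab : ∀ᶠ T in atTop, a T ≤ b T)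
    (hN : ∀ᶠ T in atTop, 0 < N T) {e : ℝ → ℝ} (he : ∀ᶠ T in atTop, 0 ≤ e T)
    (h : ∀ᶠ T in atTop, ∫⁻ t in Icc (a T) (b T), ‖f T t - g T t‖ₑ ^ 2 ≤ ENNReal.ofReal (e T))
    (he0 : Tendsto (fun T => e T / N T) atTop (𝓝 0))
    (hA : Tendsto (fun T => (∫ t in (a T)..(b T), ‖g T t‖ ^ 2) / N T) atTop (𝓝 A)) :
    Tendsto (fun T => (∫ t in (a T)..(b T), ‖f T t‖ ^ 2) / N T) atTop (𝓝 A) := by
  have key : Tendsto (fun T => (∫ t in (a T)..(b T), ‖f T t‖ ^ 2) / N T -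
      (∫ t in (a T)..(b T), ‖g T t‖ ^ 2) / N T) atTop (𝓝 0) := by
    rw [Metric.tendsto_nhds]
    intro η hη
    obtain ⟨ε, hε0, hε1, hε2⟩ : ∃ ε : ℝ, 0 < ε ∧ ε ≤ 1 ∧ 2 * ε * (|A| + 1) ≤ η / 2 := by
      refine ⟨min 1 (η / (4 * (|A| + 1))), by positivity, min_le_left _ _, ?_⟩
      have h1 : min 1 (η / (4 * (|A| + 1))) ≤ η / (4 * (|A| + 1)) := min_le_right _ _
      calc 2 * min 1 (η / (4 * (|A| + 1))) * (|A| + 1) ≤ 2 * (η / (4 * (|A| + 1))) * (|A| + 1) := by gcongr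
        _ = η / 2 := by field_simp; norm_num
    have h2 : Tendsto (fun T => (2 + 2 * ε⁻¹) * (e T / N T)) atTop (𝓝 0) := by
      simpa using he0.const_mul (2 + 2 * ε⁻¹)
    have h3 := hA.eventually_lt_const (show A < |A| + 1 by have := le_abs_self A; linarith)
    filter_upwards [hf, hg, hab, hN, he, h, h3, h2.eventually_lt_const (show (0:ℝ) < η / 2 by positivity)]
      with T t1 t2 t3 t4 t5 t6 t7 t8
    have t9 := sq_comp t1 t2 t3 t5 t6 hε0 hε1
    rw [Real.dist_eq, sub_zero, ← sub_div, abs_div, abs_of_pos t4]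
    have t10 : |(∫ t in (a T)..(b T), ‖f T t‖ ^ 2) - ∫ t in (a T)..(b T), ‖g T t‖ ^ 2| / N T ≤
        2 * ε * ((∫ t in (a T)..(b T), ‖g T t‖ ^ 2) / N T) + (2 + 2 * ε⁻¹) * (e T / N T) := by
      rw [div_le_iff₀ t4]
      refine t9.trans (le_of_eq ?_)
      field_simp
    have t11 : 2 * ε * ((∫ t in (a T)..(b T), ‖g T t‖ ^ 2) / N T) ≤ 2 * ε * (|A| + 1) := by gcongr
    linarith
  have := key.add hA
  simpa using this

/-- the mean square over the window `[aT, bT]` -/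
def Wm (φ : ℝ → ℂ) (k : ℕ) (T a b : ℝ) : ℝ := ∫ t in (a * T)..(b * T), ‖DP φ k T t‖ ^ 2

lemma Wm_nonneg (φ : ℝ → ℂ) (k : ℕ) {T a b : ℝ} (hT : 0 ≤ T) (hab : a ≤ b) : 0 ≤ Wm φ k T a b :=
  intervalIntegral.integral_nonneg (by gcongr) fun t _ => by positivity

lemma Wm_ii (h : TS φ) (k : ℕ) {T : ℝ} (hT : 1 < T) (a b : ℝ) :
    IntervalIntegrable (fun t => ‖DP φ k T t‖ ^ 2) volume a b :=
  ((DP_cont h k hT).norm.pow 2).intervalIntegrable _ _

lemma Wm_add (h : TS φ) (k : ℕ) {T : ℝ} (hT : 1 < T) (a b d : ℝ) :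
    Wm φ k T a b + Wm φ k T b d = Wm φ k T a d := by
  unfold Wm
  exact intervalIntegral.integral_add_adjacent_intervals (Wm_ii h k hT _ _) (Wm_ii h k hT _ _)

/-- the error of the change of parameter is negligible -/
lemma err_small (k : ℕ) {c : ℝ} (hM : Tendsto (fun T => M (zr k 0) T / NN (k ^ 2) T) atTop (𝓝 c)) (C B : ℝ)
    (hB : 0 < B) : Tendsto (fun T => C / Real.log T ^ 2 * (M (zr k 0) (B * T) + 1) / NN (k ^ 2) T) atTop (𝓝 0) := by
  have h1 := mratio (k ^ 2) hM hB (s := fun T => B * T) (two_ratio B)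
  have h2 : Tendsto (fun T : ℝ => C / Real.log T ^ 2) atTop (𝓝 0) := by
    refine Tendsto.const_div_atTop ?_ C
    exact (tendsto_pow_atTop (by norm_num)).comp Real.tendsto_log_atTop
  have h3 : Tendsto (fun T : ℝ => 1 / NN (k ^ 2) T) atTop (𝓝 0) := by
    simpa using (NN_inf (k ^ 2)).const_div_atTop 1
  have h4 := h2.mul (h1.add h3)
  rw [zero_mul] at h4
  refine h4.congr fun T => ?_
  ring

/-- dyadic windows -/
theorem dy_window {k : ℕ} (hk : 2 ≤ k) (h : TS φ)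
    (hφ : ∀ x ∈ Icc (1:ℝ) (k - 1), ‖φ x‖ ^ 2 + ‖φ (k - x)‖ ^ 2 = 1) {c : ℝ}
    (hM : Tendsto (fun T => M (zr k 0) T / NN (k ^ 2) T) atTop (𝓝 c)) {s : ℝ} (hs : 0 < s) :
    Tendsto (fun T => Wm φ k T s (2 * s) / NN (k ^ 2) T) atTop (𝓝 ((c / 2 + Jc φ k) * s)) := by
  have D := zdat k (u := 1) le_rfl
  have h0 := (half_iff hk h hφ c).1 hM
  obtain ⟨r1, r2⟩ := NN_ratio (k ^ 2) (s := fun T => s * T) hs (two_ratio s)
  have h1 : Tendsto (fun T => mD φ k (s * T) / NN (k ^ 2) T) atTop (𝓝 ((c / 2 + Jc φ k) * s)) := by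
    refine ((h0.comp r2).mul r1).congr' ?_
    filter_upwards [eventually_gt_atTop 1, r2.eventually_gt_atTop 1] with T hT hT2
    have := NN_pos (k ^ 2) hT
    have := NN_pos (k ^ 2) hT2
    simp only [Function.comp]
    field_simp
  have hmD : ∀ T : ℝ, mD φ k (s * T) = ∫ t in (s * T)..(2 * s * T), ‖DP φ k (s * T) t‖ ^ 2 := by
    intro T
    unfold mD
    congr 1
    ring
  simp_rw [hmD] at h1
  have hcont : ∀ᶠ T : ℝ in atTop, Continuous (DP φ k T) := by
    filter_upwards [eventually_gt_atTop 1] with T hT using DP_cont h k hT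
  have hconts : ∀ᶠ T : ℝ in atTop, Continuous (DP φ k (s * T)) := by
    filter_upwards [r2.eventually_gt_atTop 1] with T hT using DP_cont h k hT
  have hN : ∀ᶠ T : ℝ in atTop, 0 < NN (k ^ 2) T := by
    filter_upwards [eventually_gt_atTop 1] with T hT using NN_pos _ hT
  have hle : ∀ᶠ T : ℝ in atTop, s * T ≤ 2 * s * T := by
    filter_upwards [eventually_gt_atTop 0] with T hT
    nlinarith [mul_pos hs hT]
  rcases le_total 1 s with hs1 | hs1
  · obtain ⟨C, T0, hC, hT0, hd⟩ := DP_diff h k (a := s) (b := 2 * s) (r := s) hs (by linarith) hs1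
    refine tend_comp (f := fun T => DP φ k T) (g := fun T => DP φ k (s * T)) (a := fun T => s * T)
      (b := fun T => 2 * s * T) (N := NN (k ^ 2)) hcont hconts hle hN
      (e := fun T => C / Real.log T ^ 2 * (M (zr k 0) ((s + 2 * s * s) * T) + 1)) ?_ ?_
      (err_small k hM C _ (by positivity)) h1
    · filter_upwards [eventually_ge_atTop 1] with T hT
      have := M_nonneg (zr k 0) (T := (s + 2 * s * s) * T) (by positivity)
      positivity
    · filter_upwards [eventually_ge_atTop T0] with T hT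
      refine le_trans (le_of_eq ?_) (hd T hT)
      refine lintegral_congr fun t => ?_
      rw [enorm_sub_rev]
  · have hr : 1 ≤ 1 / s := by rw [le_div_iff₀ hs]; linarith
    obtain ⟨C, T0, hC, hT0, hd⟩ := DP_diff h k (a := 1) (b := 2) (r := 1 / s) one_pos (by norm_num) hr
    have he := (err_small k hM C (1 + 2 * (1 / s)) (by positivity)).comp r2
    have he' : Tendsto (fun T => C / Real.log (s * T) ^ 2 * (M (zr k 0) ((1 + 2 * (1 / s)) * (s * T)) + 1) /
        NN (k ^ 2) T) atTop (𝓝 0) := by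
      have h2 := he.mul r1
      rw [zero_mul] at h2
      refine h2.congr' ?_
      filter_upwards [eventually_gt_atTop 1, r2.eventually_gt_atTop 1] with T hT hT2
      have := NN_pos (k ^ 2) hT
      have := NN_pos (k ^ 2) hT2
      simp only [Function.comp]
      field_simp
    refine tend_comp (f := fun T => DP φ k T) (g := fun T => DP φ k (s * T)) (a := fun T => s * T)
      (b := fun T => 2 * s * T) (N := NN (k ^ 2)) hcont hconts hle hN
      (e := fun T => C / Real.log (s * T) ^ 2 * (M (zr k 0) ((1 + 2 * (1 / s)) * (s * T)) + 1)) ?_ ?_ he' h1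
    · filter_upwards [eventually_ge_atTop 1] with T hT
      have := M_nonneg (zr k 0) (T := (1 + 2 * (1 / s)) * (s * T)) (by positivity)
      positivity
    · filter_upwards [r2.eventually_ge_atTop T0] with T hT
      have := hd (s * T) hT
      have e1 : 1 / s * (s * T) = T := by field_simp
      rw [e1, one_mul] at this
      have e2 : 2 * (s * T) = 2 * s * T := by ring
      rwa [e2] at this

/-- chains of dyadic windows -/
lemma dy_chain {k : ℕ} (h : TS φ) {c' : ℝ}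
    (hd : ∀ s : ℝ, 0 < s → Tendsto (fun T => Wm φ k T s (2 * s) / NN (k ^ 2) T) atTop (𝓝 (c' * s)))
    {x : ℝ} (hx : 0 < x) (m : ℕ) :
    Tendsto (fun T => Wm φ k T x (2 ^ m * x) / NN (k ^ 2) T) atTop (𝓝 (c' * ((2 ^ m - 1) * x))) := by
  induction m with
  | zero =>
    simp only [pow_zero, one_mul, sub_self, zero_mul, mul_zero]
    refine tendsto_const_nhds.congr fun T => ?_
    unfold Wm
    simp
  | succ m ih =>
    have h1 := ih.add (hd (2 ^ m * x) (by positivity))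
    have e : c' * ((2 ^ m - 1) * x) + c' * (2 ^ m * x) = c' * ((2 ^ (m + 1) - 1) * x) := by
      rw [pow_succ]; ring
    rw [e] at h1
    refine h1.congr' ?_
    filter_upwards [eventually_gt_atTop 1] with T hT
    rw [← add_div, Wm_add h k hT]
    congr 2
    ring

/-- halving both ends -/
lemma dy_half {k : ℕ} (h : TS φ) {c' : ℝ}
    (hd : ∀ s : ℝ, 0 < s → Tendsto (fun T => Wm φ k T s (2 * s) / NN (k ^ 2) T) atTop (𝓝 (c' * s)))
    {a b : ℝ} (ha : 0 < a) (hb : 0 < b) (j : ℕ) :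
    Tendsto (fun T => Wm φ k T a b / NN (k ^ 2) T - Wm φ k T (a / 2 ^ j) (b / 2 ^ j) / NN (k ^ 2) T) atTop
      (𝓝 (c' * (b - a) * (1 - 1 / 2 ^ j))) := by
  induction j with
  | zero =>
    simp only [pow_zero, div_one, sub_self, mul_zero]
    exact tendsto_const_nhds
  | succ j ih =>
    have h1 := hd (b / 2 ^ (j + 1)) (by positivity)
    have h2 := hd (a / 2 ^ (j + 1)) (by positivity)
    have h3 := ih.add (h1.sub h2)
    have e : c' * (b - a) * (1 - 1 / 2 ^ j) + (c' * (b / 2 ^ (j + 1)) - c' * (a / 2 ^ (j + 1))) =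
        c' * (b - a) * (1 - 1 / 2 ^ (j + 1)) := by
      rw [pow_succ]; field_simp; ring
    rw [e] at h3
    refine h3.congr' ?_
    filter_upwards [eventually_gt_atTop 1] with T hT
    have e1 : 2 * (b / 2 ^ (j + 1)) = b / 2 ^ j := by rw [pow_succ]; field_simp
    have e2 : 2 * (a / 2 ^ (j + 1)) = a / 2 ^ j := by rw [pow_succ]; field_simp
    rw [e1, e2]
    have a1 := Wm_add h k hT (a / 2 ^ (j + 1)) (a / 2 ^ j) (b / 2 ^ j)
    have a2 := Wm_add h k hT (a / 2 ^ (j + 1)) (b / 2 ^ (j + 1)) (b / 2 ^ j)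
    have a3 : Wm φ k T (a / 2 ^ j) (b / 2 ^ j) - Wm φ k T (a / 2 ^ (j + 1)) (b / 2 ^ (j + 1)) =
        Wm φ k T (b / 2 ^ (j + 1)) (b / 2 ^ j) - Wm φ k T (a / 2 ^ (j + 1)) (a / 2 ^ j) := by linarith
    have a4 : Wm φ k T (a / 2 ^ j) (b / 2 ^ j) / NN (k ^ 2) T -
        Wm φ k T (a / 2 ^ (j + 1)) (b / 2 ^ (j + 1)) / NN (k ^ 2) T =
        Wm φ k T (b / 2 ^ (j + 1)) (b / 2 ^ j) / NN (k ^ 2) T -
        Wm φ k T (a / 2 ^ (j + 1)) (a / 2 ^ j) / NN (k ^ 2) T := by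
      rw [← sub_div, ← sub_div, a3]
    linarith

/-- all windows, from the dyadic ones -/
theorem all_windows {k : ℕ} (h : TS φ) {c' : ℝ}
    (hd : ∀ s : ℝ, 0 < s → Tendsto (fun T => Wm φ k T s (2 * s) / NN (k ^ 2) T) atTop (𝓝 (c' * s)))
    {a b : ℝ} (ha : 0 < a) (hab : a ≤ b) :
    Tendsto (fun T => Wm φ k T a b / NN (k ^ 2) T) atTop (𝓝 (c' * (b - a))) := by
  have hb : 0 < b := lt_of_lt_of_le ha hab
  obtain ⟨m, hm⟩ := pow_unbounded_of_one_lt (b / a) (show (1:ℝ) < 2 by norm_num)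
  have hm' : b ≤ 2 ^ m * a := by rw [div_lt_iff₀ ha] at hm; exact hm.le
  rw [Metric.tendsto_nhds]
  intro ε hε
  have hlim : Tendsto (fun j : ℕ => (|c'| * ((2 ^ m - 1) * a) + 1 + |c' * (b - a)|) * (1 / 2 : ℝ) ^ j) atTop (𝓝 0) := by
    simpa using (tendsto_pow_atTop_nhds_zero_of_lt_one (show (0:ℝ) ≤ 1 / 2 by norm_num)
      (show (1 / 2 : ℝ) < 1 by norm_num)).const_mul (|c'| * ((2 ^ m - 1) * a) + 1 + |c' * (b - a)|)
  obtain ⟨j, hj⟩ := (hlim.eventually_lt_const (show (0:ℝ) < ε / 4 by positivity)).exists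
  have h1 := dy_half h hd ha hb j
  have hx : 0 < a / 2 ^ j := by positivity
  have h2 := dy_chain h hd hx m
  rw [Metric.tendsto_nhds] at h1
  have h1' := h1 (ε / 4) (by positivity)
  have h2' := h2.eventually_lt_const (show c' * ((2 ^ m - 1) * (a / 2 ^ j)) <
    c' * ((2 ^ m - 1) * (a / 2 ^ j)) + ε / 4 by linarith)
  filter_upwards [h1', h2', eventually_gt_atTop 1] with T t1 t2 hT
  rw [Real.dist_eq] at t1 ⊢
  have hN := NN_pos (k ^ 2) hT
  have hT0 : 0 ≤ T := by linarith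
  have t3 : 0 ≤ Wm φ k T (a / 2 ^ j) (b / 2 ^ j) / NN (k ^ 2) T := by
    refine div_nonneg (Wm_nonneg _ _ hT0 ?_) hN.le
    gcongr
  have t4 : Wm φ k T (a / 2 ^ j) (b / 2 ^ j) / NN (k ^ 2) T ≤ Wm φ k T (a / 2 ^ j) (2 ^ m * (a / 2 ^ j)) / NN (k ^ 2) T := by
    refine div_le_div_of_nonneg_right ?_ hN.le
    have a1 := Wm_add h k hT (a / 2 ^ j) (b / 2 ^ j) (2 ^ m * (a / 2 ^ j))
    have a2 := Wm_nonneg φ k hT0 (a := b / 2 ^ j) (b := 2 ^ m * (a / 2 ^ j)) (by
      rw [div_le_iff₀ (by positivity)]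
      calc b ≤ 2 ^ m * a := hm'
        _ = _ := by field_simp)
    linarith
  have hp : (0:ℝ) < (1 / 2) ^ j := by positivity
  have e1 : (1:ℝ) / 2 ^ j = (1 / 2) ^ j := by rw [one_div_pow]
  have e2 : a / 2 ^ j = a * (1 / 2) ^ j := by rw [one_div_pow]; ring
  have t5 : c' * ((2 ^ m - 1) * (a / 2 ^ j)) ≤ |c'| * ((2 ^ m - 1) * a) * (1 / 2) ^ j := by
    rw [e2]
    have h3 : (1:ℝ) ≤ 2 ^ m := one_le_pow₀ (by norm_num)
    have h4 : 0 ≤ (2 ^ m - 1) * a * (1 / 2) ^ j := by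
      have : (0:ℝ) ≤ 2 ^ m - 1 := by linarith
      positivity
    have h5 := mul_le_mul_of_nonneg_right (le_abs_self c') h4
    linarith
  have t6 : |c' * (b - a) * (1 / 2 ^ j)| = |c' * (b - a)| * (1 / 2) ^ j := by
    rw [e1, abs_mul, abs_of_pos hp]
  have t7 := abs_lt.1 t1
  have t8 := abs_le.1 (le_of_eq t6)
  have t9 : |c'| * ((2 ^ m - 1) * a) * (1 / 2) ^ j + (1 / 2) ^ j + |c' * (b - a)| * (1 / 2) ^ j < ε / 4 := by
    have : (|c'| * ((2 ^ m - 1) * a) + 1 + |c' * (b - a)|) * (1 / 2 : ℝ) ^ j =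
      |c'| * ((2 ^ m - 1) * a) * (1 / 2) ^ j + (1 / 2) ^ j + |c' * (b - a)| * (1 / 2) ^ j := by ring
    linarith
  have t10 : 0 ≤ |c'| * ((2 ^ m - 1) * a) * (1 / 2) ^ j := by
    have h3 : (1:ℝ) ≤ 2 ^ m := one_le_pow₀ (by norm_num)
    have : (0:ℝ) ≤ 2 ^ m - 1 := by linarith
    positivity
  have t11 : 0 ≤ |c' * (b - a)| * (1 / 2) ^ j := by positivity
  rw [abs_lt]
  have e3 : c' * (b - a) * (1 - 1 / 2 ^ j) = c' * (b - a) - c' * (b - a) * (1 / 2 ^ j) := by ring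
  rw [e3] at t7
  constructor
  · linarith [t7.1, t8.1, t8.2]
  · linarith [t7.2, t8.1, t8.2]

/-- the mean square over all windows -/
theorem windows {k : ℕ} (hk : 2 ≤ k) (h : TS φ)
    (hφ : ∀ x ∈ Icc (1:ℝ) (k - 1), ‖φ x‖ ^ 2 + ‖φ (k - x)‖ ^ 2 = 1) {c : ℝ}
    (hM : Tendsto (fun T => M (zr k 0) T / NN (k ^ 2) T) atTop (𝓝 c)) {a b : ℝ} (ha : 0 < a) (hab : a ≤ b) :
    Tendsto (fun T => Wm φ k T a b / NN (k ^ 2) T) atTop (𝓝 ((c / 2 + Jc φ k) * (b - a))) :=
  all_windows h (fun s hs => dy_window hk h hφ hM hs) ha hab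

end

end Pool.Agent.K4H6.SV
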