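import Pool.Agent.K4H66.HL.O

set_option autoImplicit false

/-! The smooth Dirichlet polynomial in general windows. -/

namespace Pool.Agent.K4H6.SV

open Complex MeasureTheory Filter Topology Set Pool.Agent.TH535.SM Pool.Agent.K4H66.OL Pool.Agent.K4H66.HL
open scoped ComplexConjugate FourierTransform ContDiff ENNReal Convolution

noncomputable section

variable {φ : ℝ → ℂ}

/-- on the window `[aT, bT]` the polynomial is the convolution of `ζ^k` -/
theorem DPw_close (h : TS φ) (k : ℕ) {a b : ℝ} (ha : 0 < a) (hab : a ≤ b) :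
    ∃ C T0 : ℝ, 0 ≤ C ∧ Real.exp 1 ≤ T0 ∧ ∀ T : ℝ, T0 ≤ T →
    ∀ t ∈ Icc (a * T) (b * T), ‖DP φ k T t - KK (kp φ (Real.log T)) (zr k 0) t‖ ≤ C / T := by
  obtain ⟨X, hX0, hX⟩ := h.tf
  have hb : 0 < b := lt_of_lt_of_le ha hab
  set κ : ℝ := 1 / 8 with hκd
  have hκ : 0 < κ := by rw [hκd]; norm_num
  obtain ⟨D1, hD1, h1⟩ := W182.KO.tau_ptw k hκ
  obtain ⟨D2, hD2, h2⟩ := W182.KO.tau_ptw 0 hκ
  set M : ℕ := 2 * k with hM
  obtain ⟨C1, G1⟩ := W182.KO.ZP_DF (fun _ : Fin k => (0:ℝ)) hκ hD1 (h1 _) (M := M) le_rfl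
    (le_max_left (W182.KO.RR (fun _ : Fin k => (0:ℝ))) (W182.KO.RR (fun _ : Fin 0 => (0:ℝ))))
  obtain ⟨C2, G2⟩ := W182.KO.ZP_DF (fun _ : Fin 0 => (0:ℝ)) hκ hD2 (h2 _) (M := M) (by omega)
    (le_max_right (W182.KO.RR (fun _ : Fin k => (0:ℝ))) (W182.KO.RR (fun _ : Fin 0 => (0:ℝ))))
  set R : ℝ := max (W182.KO.RR (fun _ : Fin k => (0:ℝ))) (W182.KO.RR (fun _ : Fin 0 => (0:ℝ))) with hR
  obtain ⟨n, hn⟩ := exists_nat_ge (X + 2 * M + 2)
  obtain ⟨Cs, hCs, hs⟩ := W182.KO.shift hX hX0 G1 G2 (by rw [hκd]; norm_num) n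
  refine ⟨Cs * (1 + b) ^ (2 * M) / a ^ n, max (Real.exp 1) (max (1 / a) (2 * R / a)), by positivity,
    le_max_left _ _, fun T hT t ht => ?_⟩
  have hTe : Real.exp 1 ≤ T := (le_max_left _ _).trans hT
  have hT0 : 0 < T := (Real.exp_pos 1).trans_le hTe
  have hT1 : 1 ≤ T := by have := Real.add_one_le_exp 1; linarith
  have hTa : 1 ≤ a * T := by
    have := (le_max_left _ _).trans ((le_max_right _ _).trans hT)
    rw [div_le_iff₀ ha] at this
    linarith
  have hT2 : 2 * R ≤ a * T := by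
    have := (le_max_right _ _).trans ((le_max_right _ _).trans hT)
    rw [div_le_iff₀ ha] at this
    linarith
  have hL : 1 ≤ Real.log T := by rwa [Real.le_log_iff_exp_le hT0]
  have hLT : Real.log T ≤ T := by have := Real.log_le_sub_one_of_pos hT0; linarith
  have h3 := hs (Real.log T) (a * T) t hL hTa hT2 ht.1
  rw [← DP_K0 hX k hκ hTe t]
  have e1 : KK (kp φ (Real.log T)) (zr k 0) t = ((Real.log T / (2 * Real.pi) : ℝ) : ℂ) *
      W182.KO.I0 φ (W182.KO.ZP (fun _ : Fin k => (0:ℝ))) (W182.KO.ZP (fun _ : Fin 0 => (0:ℝ))) (Real.log T) t := by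
    unfold KK W182.KO.I0
    rw [← integral_const_mul]
    refine integral_congr_ae (Eventually.of_forall fun y => ?_)
    simp only
    rw [W182.KO.ZP_zero, W182.KO.ZP_zero, pow_zero, mul_one]
    unfold kp zr
    have : (((1 / 2 + 0 : ℝ) : ℂ) + ((t + y : ℝ) : ℂ) * I) = 1 / 2 + ((y + t : ℝ) : ℂ) * I := by push_cast; ring
    rw [this]
    ring
  rw [e1, ← mul_sub, norm_mul, norm_sub_rev, Complex.norm_real, Real.norm_of_nonneg (by positivity)]
  have e2 : Real.exp (X * (Real.log T * (1 + 4 * κ - 1 / 2))) = T ^ X := by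
    rw [Real.rpow_def_of_pos hT0, hκd]; congr 1; ring
  rw [e2] at h3
  have ht0 : 0 ≤ t := by have := ht.1; nlinarith
  have h4 : (1 + t) ^ (2 * M) ≤ (1 + b) ^ (2 * M) * T ^ (2 * M) := by
    rw [← mul_pow]
    have := ht.2
    gcongr
    nlinarith
  have hLp : Real.log T / (2 * Real.pi) ≤ T := by
    have := Real.pi_gt_three
    exact (div_le_self (by linarith) (by linarith)).trans hLT
  have h5 : T ^ X * T ^ (2 * M) * T ^ 2 ≤ T ^ n := by
    have a1 : T ^ X * T ^ (2 * M) * T ^ 2 = T ^ (X + 2 * M + 2) := by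
      rw [Real.rpow_add hT0, Real.rpow_add hT0]
      congr 1
      · congr 1
        have := Real.rpow_natCast T (2 * M)
        rw [← this]; push_cast; rfl
      · have := Real.rpow_natCast T 2
        rw [← this]; norm_num
    rw [a1, ← Real.rpow_natCast]
    exact Real.rpow_le_rpow_of_exponent_le hT1 hn
  have hTn : 0 < T ^ n := by positivity
  have han : 0 < a ^ n := by positivity
  have hTX : 0 < T ^ X := Real.rpow_pos_of_pos hT0 _
  calc Real.log T / (2 * Real.pi) * ‖_‖ ≤ T * (Cs * (T ^ X * (1 + t) ^ (2 * M)) / (a * T) ^ n) := by gcongr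
    _ ≤ T * (Cs * (T ^ X * ((1 + b) ^ (2 * M) * T ^ (2 * M))) / (a * T) ^ n) := by gcongr
    _ = Cs * (1 + b) ^ (2 * M) / a ^ n * (T ^ X * T ^ (2 * M) * T ^ 2) / (T * T ^ n) := by
      rw [mul_pow]; field_simp
    _ ≤ Cs * (1 + b) ^ (2 * M) / a ^ n * T ^ n / (T * T ^ n) := by gcongr
    _ = _ := by field_simp

/-- mass of the shifted window -/
lemma win_mass {z : ℝ → ℂ} {G : ℂ → ℂ} {u K : ℕ} (D : Dat z G u K) {a b T y : ℝ} (ha : 0 < a) (hab : a ≤ b)
    (hT : 1 ≤ T) :
    ∫⁻ t in Icc (a * T) (b * T), ‖z (t + y)‖ₑ ^ 2 =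
      ENNReal.ofReal (∫ t in (a * T + y)..(b * T + y), ‖z t‖ ^ 2) := by
  have hle : a * T ≤ b * T := by gcongr
  have e : ∀ x : ℂ, ‖x‖ₑ ^ 2 = ENNReal.ofReal (‖x‖ ^ 2) := by
    intro x
    rw [ENNReal.ofReal_pow (norm_nonneg _), ofReal_norm]
  simp_rw [e]
  have hc : Continuous (fun t => ‖z (t + y)‖ ^ 2) := (D.zc.comp (by fun_prop)).norm.pow 2
  rw [← ofReal_integral_eq_lintegral_ofReal (hc.continuousOn.integrableOn_Icc)
    (Eventually.of_forall fun t => by positivity), integral_Icc_eq_integral_Ioc,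
    ← intervalIntegral.integral_of_le hle, intervalIntegral.integral_comp_add_right (fun t => ‖z t‖ ^ 2) y]

/-- the weight of the kernel against the window masses -/
lemma kern_pt (h : TS φ) {z : ℝ → ℂ} {G : ℂ → ℂ} {u K : ℕ} (D : Dat z G u K) {a b : ℝ} (ha : 0 < a)
    (hab : a ≤ b) : ∃ C : ℝ, 0 ≤ C ∧ ∀ T : ℝ, Real.exp 1 ≤ T → ∀ y : ℝ,
    ‖kp φ (Real.log T) y‖ * (∫ t in (a * T + y)..(b * T + y), ‖z t‖ ^ 2) ≤
      ‖kp φ (Real.log T) y‖ * M z ((a + b) * T) + C * ((1 + |y|) ^ 2)⁻¹ := by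
  obtain ⟨C1, p, hC1, hb1⟩ := D.zb
  have hb : 0 < b := lt_of_lt_of_le ha hab
  obtain ⟨C2, hC2, hk⟩ := kp_bd h (2 * p + 4)
  refine ⟨C2 * (1 / a) * ((b - a) / a * C1 * (1 + b / a) ^ p), by
    have : 0 ≤ b - a := by linarith
    positivity, fun T hT y => ?_⟩
  have hT0 : 0 < T := (Real.exp_pos 1).trans_le hT
  have hT1 : 1 ≤ T := by have := Real.add_one_le_exp 1; linarith
  have hL : 1 ≤ Real.log T := by rwa [Real.le_log_iff_exp_le hT0]
  set L := Real.log T with hLd
  have hy0 := abs_nonneg y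
  have hba : 0 ≤ b - a := by linarith
  have hc0 : 0 ≤ C2 * (1 / a) * ((b - a) / a * C1 * (1 + b / a) ^ p) * ((1 + |y|) ^ 2)⁻¹ := by positivity
  by_cases hy : |y| ≤ a * T
  · have h1 : ∫ t in (a * T + y)..(b * T + y), ‖z t‖ ^ 2 ≤ M z ((a + b) * T) := by
      have h2 : ∫ t in (a * T + y)..(b * T + y), ‖z t‖ ^ 2 = M z (b * T + y) - M z (a * T + y) := by
        unfold M
        rw [intervalIntegral.integral_interval_sub_left (D.sc.intervalIntegrable _ _)
          (D.sc.intervalIntegrable _ _)]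
      have h3 := M_nonneg z (T := a * T + y) (by have := neg_abs_le y; linarith)
      have h4 := M_mono D (show b * T + y ≤ (a + b) * T by have := le_abs_self y; linarith)
      linarith
    have h5 := mul_le_mul_of_nonneg_left h1 (norm_nonneg (kp φ L y))
    linarith
  · push Not at hy
    have h1 : ∫ t in (a * T + y)..(b * T + y), ‖z t‖ ^ 2 ≤
        (b - a) / a * C1 * (1 + b / a) ^ p * (1 + |y|) ^ (2 * p + 1) := by
      have hle : a * T + y ≤ b * T + y := by gcongr
      calc ∫ t in (a * T + y)..(b * T + y), ‖z t‖ ^ 2 ≤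
          ∫ t in (a * T + y)..(b * T + y), C1 * ((1 + b / a) * (1 + |y|) * (1 + |y|)) ^ p := by
            refine intervalIntegral.integral_mono_on hle (D.sc.intervalIntegrable _ _)
              intervalIntegrable_const fun t ht => (hb1 t).trans ?_
            have h2 : |t| ≤ b * T + |y| := by
              rw [abs_le]
              have := neg_abs_le y
              have := le_abs_self y
              constructor
              · have : 0 ≤ a * T := by positivity
                have : 0 ≤ b * T := by positivity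
                linarith [ht.1]
              · linarith [ht.2]
            have h3 : T ≤ |y| / a := by
              rw [le_div_iff₀ ha]; linarith
            have h4 : b * T ≤ b / a * |y| := by
              have := mul_le_mul_of_nonneg_left h3 hb.le
              calc b * T ≤ b * (|y| / a) := this
                _ = b / a * |y| := by ring
            have h5 : 0 ≤ b / a := by positivity
            have h6 : 1 + |t| ≤ (1 + b / a) * (1 + |y|) * (1 + |y|) := by nlinarith [mul_nonneg h5 hy0]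
            gcongr
        _ = (b - a) * T * (C1 * ((1 + b / a) * (1 + |y|) * (1 + |y|)) ^ p) := by
            rw [intervalIntegral.integral_const, smul_eq_mul]; ring
        _ ≤ (b - a) * ((1 + |y|) / a) * (C1 * ((1 + b / a) * (1 + |y|) * (1 + |y|)) ^ p) := by
            have h3 : T ≤ (1 + |y|) / a := by
              rw [le_div_iff₀ ha]; linarith
            gcongr
        _ = _ := by
            rw [mul_pow, mul_pow]; ring
    have h2 := hk L y (by linarith)
    have hLy : |L * y| = L * |y| := by rw [abs_mul, abs_of_nonneg (by linarith)]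
    rw [hLy] at h2
    have hyp : 0 < |y| := lt_trans (by positivity) hy
    have h3 : L / (1 + L * |y|) ^ (2 * p + 4) ≤ 1 / a * ((1 + |y|) ^ (2 * p + 3))⁻¹ := by
      have a1 : (1 + |y|) ^ (2 * p + 3) ≤ (1 + L * |y|) ^ (2 * p + 3) := by
        gcongr
        nlinarith
      have a2 : L * a ≤ 1 + L * |y| := by
        have : a ≤ |y| := by nlinarith
        nlinarith
      have e1 : (1 + L * |y|) ^ (2 * p + 4) = (1 + L * |y|) ^ (2 * p + 3) * (1 + L * |y|) := pow_succ _ _
      rw [e1, div_le_iff₀ (by positivity)]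
      calc L = 1 / a * ((1 + |y|) ^ (2 * p + 3))⁻¹ * ((1 + |y|) ^ (2 * p + 3) * (L * a)) := by field_simp
        _ ≤ 1 / a * ((1 + |y|) ^ (2 * p + 3))⁻¹ * ((1 + L * |y|) ^ (2 * p + 3) * (1 + L * |y|)) := by gcongr
    have hM : 0 ≤ ‖kp φ L y‖ * M z ((a + b) * T) := mul_nonneg (norm_nonneg _) (M_nonneg _ (by positivity))
    calc ‖kp φ L y‖ * (∫ t in (a * T + y)..(b * T + y), ‖z t‖ ^ 2) ≤
        (C2 * (1 / a * ((1 + |y|) ^ (2 * p + 3))⁻¹)) *
          ((b - a) / a * C1 * (1 + b / a) ^ p * (1 + |y|) ^ (2 * p + 1)) := by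
          refine mul_le_mul (h2.trans (by gcongr)) h1 ?_ (by positivity)
          exact intervalIntegral.integral_nonneg (by gcongr) fun t _ => by positivity
      _ = C2 * (1 / a) * ((b - a) / a * C1 * (1 + b / a) ^ p) * ((1 + |y|) ^ 2)⁻¹ := by
          have e1 : (1 + |y|) ^ (2 * p + 3) = (1 + |y|) ^ (2 * p + 1) * (1 + |y|) ^ 2 := by ring
          rw [e1]
          field_simp
      _ ≤ _ := by linarith

/-- the convolution is bounded in mean square over the window -/
theorem KK_mass (h : TS φ) {z : ℝ → ℂ} {G : ℂ → ℂ} {u K : ℕ} (D : Dat z G u K) {a b : ℝ} (ha : 0 < a)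
    (hab : a ≤ b) : ∃ C : ℝ, 0 ≤ C ∧ ∀ T : ℝ, Real.exp 1 ≤ T →
      ∫⁻ t in Icc (a * T) (b * T), ‖KK (kp φ (Real.log T)) z t‖ₑ ^ 2 ≤
        ENNReal.ofReal (C * (M z ((a + b) * T) + 1)) := by
  have hb : 0 < b := lt_of_lt_of_le ha hab
  obtain ⟨C1, hC1, h1⟩ := kern_pt h D ha hab
  obtain ⟨C2, hC2, h2⟩ := kp_mom h 0
  set J : ℝ := ∫ y : ℝ, ((1 + |y|) ^ 2)⁻¹ with hJ
  have hJ0 : 0 ≤ J := integral_nonneg fun y => by positivity
  refine ⟨C2 * (C2 + C1 * J), by positivity, fun T hT => ?_⟩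
  have hT0 : 0 < T := (Real.exp_pos 1).trans_le hT
  have hT1 : 1 ≤ T := by have := Real.add_one_le_exp 1; linarith
  have hL : 1 ≤ Real.log T := by rwa [Real.le_log_iff_exp_le hT0]
  set L := Real.log T with hLd
  obtain ⟨i0, i1⟩ := h2 L (by linarith)
  simp only [pow_zero, mul_one, div_one] at i0 i1
  have hm : 0 ≤ M z ((a + b) * T) := M_nonneg _ (by positivity)
  set Gf : ℝ × ℝ → ℂ := fun p => (Icc (a * T) (b * T)).indicator (fun _ => (1:ℂ)) p.1 * z (p.1 + p.2) with hGf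
  have hGm : Measurable Gf :=
    ((measurable_const.indicator measurableSet_Icc).comp measurable_fst).mul
      (D.zc.measurable.comp (measurable_fst.add measurable_snd))
  have hcs := cs_ineq (κ := kp φ L) (G := Gf) (kp_cont h L).measurable hGm
  have e1 : ∫⁻ t in Icc (a * T) (b * T), ‖KK (kp φ L) z t‖ₑ ^ 2 = ∫⁻ t, ‖∫ y, kp φ L y * Gf (t, y)‖ₑ ^ 2 := by
    rw [← lintegral_indicator measurableSet_Icc]
    refine lintegral_congr fun t => ?_
    by_cases ht : t ∈ Icc (a * T) (b * T)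
    · rw [indicator_of_mem ht]
      simp only [hGf, indicator_of_mem ht, one_mul]
      rfl
    · rw [indicator_of_notMem ht]
      simp only [hGf, indicator_of_notMem ht, zero_mul, mul_zero, integral_zero, enorm_zero]
      norm_num
  have e2 : ∀ y : ℝ, ∫⁻ t, ‖Gf (t, y)‖ₑ ^ 2 = ENNReal.ofReal (∫ t in (a * T + y)..(b * T + y), ‖z t‖ ^ 2) := by
    intro y
    rw [← win_mass D ha hab hT1, ← lintegral_indicator measurableSet_Icc]
    refine lintegral_congr fun t => ?_
    by_cases ht : t ∈ Icc (a * T) (b * T)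
    · simp only [hGf, indicator_of_mem ht, one_mul]
    · simp only [hGf, indicator_of_notMem ht, zero_mul, enorm_zero]
      norm_num
  have e3 : ∫⁻ y, ‖kp φ L y‖ₑ = ENNReal.ofReal (∫ y, ‖kp φ L y‖) := by
    rw [ofReal_integral_eq_lintegral_ofReal i0 (Eventually.of_forall fun y => norm_nonneg _)]
    exact lintegral_congr fun y => (ofReal_norm _).symm
  have e4 : ∫⁻ y, ‖kp φ L y‖ₑ * ∫⁻ t, ‖Gf (t, y)‖ₑ ^ 2 ≤
      ENNReal.ofReal (C2 * M z ((a + b) * T) + C1 * J) := by
    calc ∫⁻ y, ‖kp φ L y‖ₑ * ∫⁻ t, ‖Gf (t, y)‖ₑ ^ 2 ≤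
        ∫⁻ y, ENNReal.ofReal (‖kp φ L y‖ * M z ((a + b) * T) + C1 * ((1 + |y|) ^ 2)⁻¹) := by
          refine lintegral_mono fun y => ?_
          rw [e2, ← ofReal_norm, ← ENNReal.ofReal_mul (norm_nonneg _)]
          exact ENNReal.ofReal_le_ofReal (h1 T hT y)
      _ = ENNReal.ofReal (∫ y, (‖kp φ L y‖ * M z ((a + b) * T) + C1 * ((1 + |y|) ^ 2)⁻¹)) := by
          exact (ofReal_integral_eq_lintegral_ofReal
            (f := fun y => ‖kp φ L y‖ * M z ((a + b) * T) + C1 * ((1 + |y|) ^ 2)⁻¹)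
            (iadd (i0.mul_const _) (inv_sq_int.const_mul _))
            (Eventually.of_forall fun y => by positivity)).symm
      _ ≤ _ := by
          refine ENNReal.ofReal_le_ofReal ?_
          rw [integral_add (i0.mul_const _) (inv_sq_int.const_mul _), integral_mul_const, integral_const_mul]
          gcongr
  rw [e1]
  refine hcs.trans ?_
  rw [e3]
  calc ENNReal.ofReal (∫ y, ‖kp φ L y‖) * ∫⁻ y, ‖kp φ L y‖ₑ * ∫⁻ t, ‖Gf (t, y)‖ₑ ^ 2 ≤
      ENNReal.ofReal C2 * ENNReal.ofReal (C2 * M z ((a + b) * T) + C1 * J) := by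
        gcongr
    _ = ENNReal.ofReal (C2 * (C2 * M z ((a + b) * T) + C1 * J)) := by rw [ENNReal.ofReal_mul hC2]
    _ ≤ _ := by
        refine ENNReal.ofReal_le_ofReal ?_
        have : 0 ≤ C1 * J := by positivity
        have : 0 ≤ C2 * (C1 * J * M z ((a + b) * T)) := by positivity
        nlinarith [mul_nonneg hC2 hC2]

end

end Pool.Agent.K4H6.SV
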