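import Pool.Agent.K4H6.SV.A

set_option autoImplicit false

/-! Change of the parameter of the smooth Dirichlet polynomial. -/

namespace Pool.Agent.K4H6.SV

open Complex MeasureTheory Filter Topology Set Pool.Agent.TH535.SM Pool.Agent.K4H66.OL Pool.Agent.K4H66.HL
open scoped ComplexConjugate FourierTransform ContDiff ENNReal Convolution

noncomputable section

variable {φ : ℝ → ℂ}

lemma ensq (x : ℂ) : ‖x‖ₑ ^ 2 = ENNReal.ofReal (‖x‖ ^ 2) := by
  rw [ENNReal.ofReal_pow (norm_nonneg _), ofReal_norm]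

/-- the polynomial is bounded in mean square over the window by the moment -/
theorem DP_mass (h : TS φ) (k : ℕ) {a b : ℝ} (ha : 0 < a) (hab : a ≤ b) :
    ∃ C T0 : ℝ, 0 ≤ C ∧ Real.exp 1 ≤ T0 ∧ ∀ T : ℝ, T0 ≤ T →
      ∫⁻ t in Icc (a * T) (b * T), ‖DP φ k T t‖ₑ ^ 2 ≤
        ENNReal.ofReal (C * (M (zr k 0) ((a + b) * T) + 1)) := by
  have D := zdat k (u := 1) le_rfl
  obtain ⟨C1, T1, hC1, hT1, h1⟩ := DPw_close h k ha hab
  obtain ⟨C2, hC2, h2⟩ := KK_mass h D ha hab
  refine ⟨2 * C2 + 2 * (C1 ^ 2 * (b - a)), T1, by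
    have : 0 ≤ b - a := by linarith
    positivity, hT1, fun T hT => ?_⟩
  have hTe : Real.exp 1 ≤ T := hT1.trans hT
  have hT0 : 0 < T := (Real.exp_pos 1).trans_le hTe
  have hT1' : 1 ≤ T := by have := Real.add_one_le_exp 1; linarith
  have hba : 0 ≤ b - a := by linarith
  have hm : 0 ≤ M (zr k 0) ((a + b) * T) := M_nonneg _ (by nlinarith)
  have hpt : ∀ t ∈ Icc (a * T) (b * T), ‖DP φ k T t‖ₑ ^ 2 ≤
      2 * ‖KK (kp φ (Real.log T)) (zr k 0) t‖ₑ ^ 2 + ENNReal.ofReal (2 * (C1 / T) ^ 2) := by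
    intro t ht
    have a1 := h1 T hT t ht
    rw [ensq, ensq, ← ENNReal.ofReal_ofNat, ← ENNReal.ofReal_mul (by norm_num),
      ← ENNReal.ofReal_add (by positivity) (by positivity)]
    refine ENNReal.ofReal_le_ofReal ?_
    have a2 : ‖DP φ k T t‖ ≤ ‖KK (kp φ (Real.log T)) (zr k 0) t‖ + C1 / T := by
      have := norm_sub_norm_le (DP φ k T t) (KK (kp φ (Real.log T)) (zr k 0) t)
      linarith
    have a3 := norm_nonneg (DP φ k T t)
    calc ‖DP φ k T t‖ ^ 2 ≤ (‖KK (kp φ (Real.log T)) (zr k 0) t‖ + C1 / T) ^ 2 := by gcongr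
      _ ≤ _ := by nlinarith [sq_nonneg (‖KK (kp φ (Real.log T)) (zr k 0) t‖ - C1 / T)]
  calc ∫⁻ t in Icc (a * T) (b * T), ‖DP φ k T t‖ₑ ^ 2 ≤
      ∫⁻ t in Icc (a * T) (b * T), (2 * ‖KK (kp φ (Real.log T)) (zr k 0) t‖ₑ ^ 2 +
        ENNReal.ofReal (2 * (C1 / T) ^ 2)) := setLIntegral_mono' measurableSet_Icc hpt
    _ = 2 * (∫⁻ t in Icc (a * T) (b * T), ‖KK (kp φ (Real.log T)) (zr k 0) t‖ₑ ^ 2) +
        ENNReal.ofReal (2 * (C1 / T) ^ 2) * ENNReal.ofReal (b * T - a * T) := by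
        rw [lintegral_add_right _ measurable_const, lintegral_const_mul' _ _ (by norm_num),
          setLIntegral_const, Real.volume_Icc]
    _ ≤ 2 * ENNReal.ofReal (C2 * (M (zr k 0) ((a + b) * T) + 1)) +
        ENNReal.ofReal (2 * (C1 / T) ^ 2) * ENNReal.ofReal (b * T - a * T) := by
        gcongr
        exact h2 T hTe
    _ = ENNReal.ofReal (2 * (C2 * (M (zr k 0) ((a + b) * T) + 1)) +
        2 * (C1 / T) ^ 2 * (b * T - a * T)) := by
        have : 0 ≤ b * T - a * T := by nlinarith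
        have q1 : ENNReal.ofReal (2 * (C2 * (M (zr k 0) ((a + b) * T) + 1))) =
            2 * ENNReal.ofReal (C2 * (M (zr k 0) ((a + b) * T) + 1)) := by
          rw [ENNReal.ofReal_mul (by norm_num), ENNReal.ofReal_ofNat]
        have q2 : ENNReal.ofReal (2 * (C1 / T) ^ 2 * (b * T - a * T)) =
            ENNReal.ofReal (2 * (C1 / T) ^ 2) * ENNReal.ofReal (b * T - a * T) :=
          ENNReal.ofReal_mul (by positivity)
        rw [ENNReal.ofReal_add (by positivity) (by positivity), q1, q2]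
    _ ≤ _ := by
        refine ENNReal.ofReal_le_ofReal ?_
        have e : 2 * (C1 / T) ^ 2 * (b * T - a * T) = 2 * (C1 ^ 2 * (b - a)) * (1 / T) := by
          field_simp
        have e2 : 1 / T ≤ 1 := by rw [div_le_one hT0]; exact hT1'
        have e3 : 0 ≤ 2 * (C1 ^ 2 * (b - a)) := by positivity
        have e4 : 2 * (C1 ^ 2 * (b - a)) * (1 / T) ≤ 2 * (C1 ^ 2 * (b - a)) * (M (zr k 0) ((a + b) * T) + 1) := by
          refine mul_le_mul_of_nonneg_left ?_ e3
          linarith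
        rw [e]
        nlinarith

/-- the derived test function -/
def dph (φ : ℝ → ℂ) (x : ℝ) : ℂ := x * deriv φ x

lemma dph_TS (h : TS φ) : TS (dph φ) := by
  have h1 : ContDiff ℝ ∞ (deriv φ) := h.cd.iterate_deriv 1
  refine ⟨?_, ?_⟩
  · exact (Complex.ofRealCLM.contDiff).mul h1
  · exact (h.cs.deriv).mul_left

/-- the polynomial as one finite sum for all parameters up to `T2` -/
lemma DP_fin {X : ℝ} (hX : W182.KO.TF X φ) (hX0 : 0 ≤ X) (k : ℕ) (T2 : ℝ) : ∃ N : ℕ, ∀ T : ℝ, 1 < T → T ≤ T2 →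
    ∀ N' : ℕ, N ≤ N' → ∀ t : ℝ, DP φ k T t = ∑ n ∈ Finset.range N',
      (W182.KO.dk k n : ℂ) * φ (Real.log n / Real.log T) * (n : ℂ) ^ (-(1 / 2 + I * t) : ℂ) := by
  refine ⟨⌈Real.exp (X * Real.log T2)⌉₊ + 1, fun T hT hT2 N' hN' t => ?_⟩
  have hL : 0 < Real.log T := Real.log_pos hT
  refine tsum_eq_sum fun n hn => ?_
  rw [Finset.mem_range, not_lt] at hn
  have h0 : X * Real.log T ≤ X * Real.log T2 := by
    have : Real.log T ≤ Real.log T2 := Real.log_le_log (by linarith) hT2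
    gcongr
  have h1 : Real.exp (X * Real.log T) < n := by
    refine (Real.exp_le_exp.2 h0).trans_lt ((Nat.le_ceil _).trans_lt ?_)
    exact_mod_cast lt_of_lt_of_le (Nat.lt_succ_self _) (hN'.trans hn)
  have h2 : X < Real.log n / Real.log T := by
    rw [lt_div_iff₀ hL]
    have hn0 : (0:ℝ) < n := (Real.exp_pos _).trans h1
    exact (Real.lt_log_iff_exp_lt hn0).2 h1
  rw [hX.sp _ h2]
  simp

/-- the kernel of the change of parameter -/
def kap (T1 T2 τ : ℝ) : ℂ := (Ioc T1 T2).indicator (fun τ => ((-(τ * Real.log τ)⁻¹ : ℝ) : ℂ)) τ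

lemma kap_meas (T1 T2 : ℝ) : Measurable (kap T1 T2) := by
  unfold kap
  refine Measurable.indicator ?_ measurableSet_Ioc
  exact Complex.measurable_ofReal.comp ((measurable_id.mul Real.measurable_log).inv.neg)

/-- change of parameter -/
lemma DP_param (h : TS φ) (k : ℕ) {T1 T2 : ℝ} (hT1 : 1 < T1) (hT : T1 ≤ T2) (t : ℝ) :
    DP φ k T2 t - DP φ k T1 t = ∫ τ, kap T1 T2 τ * DP (dph φ) k τ t := by
  obtain ⟨X, hX0, hX⟩ := h.tf
  obtain ⟨X', hX0', hX'⟩ := (dph_TS h).tf
  obtain ⟨N1, hN1⟩ := DP_fin hX hX0 k T2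
  obtain ⟨N2, hN2⟩ := DP_fin hX' hX0' k T2
  set N := max N1 N2 with hN
  have f1 : ∀ τ ∈ Icc T1 T2, DP φ k τ t = ∑ n ∈ Finset.range N,
      (W182.KO.dk k n : ℂ) * φ (Real.log n / Real.log τ) * (n : ℂ) ^ (-(1 / 2 + I * t) : ℂ) :=
    fun τ hτ => hN1 τ (hT1.trans_le hτ.1) hτ.2 N (le_max_left _ _) t
  have f2 : ∀ τ ∈ Icc T1 T2, DP (dph φ) k τ t = ∑ n ∈ Finset.range N,
      (W182.KO.dk k n : ℂ) * dph φ (Real.log n / Real.log τ) * (n : ℂ) ^ (-(1 / 2 + I * t) : ℂ) :=
    fun τ hτ => hN2 τ (hT1.trans_le hτ.1) hτ.2 N (le_max_right _ _) t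
  have hd : ∀ τ ∈ uIcc T1 T2, HasDerivAt (fun τ : ℝ => ∑ n ∈ Finset.range N,
      (W182.KO.dk k n : ℂ) * φ (Real.log n / Real.log τ) * (n : ℂ) ^ (-(1 / 2 + I * t) : ℂ))
      (((-(τ * Real.log τ)⁻¹ : ℝ) : ℂ) * ∑ n ∈ Finset.range N,
      (W182.KO.dk k n : ℂ) * dph φ (Real.log n / Real.log τ) * (n : ℂ) ^ (-(1 / 2 + I * t) : ℂ)) τ := by
    intro τ hτ
    rw [uIcc_of_le hT] at hτ
    have hτ1 : 1 < τ := hT1.trans_le hτ.1
    have hL : 0 < Real.log τ := Real.log_pos hτ1
    rw [Finset.mul_sum]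
    refine HasDerivAt.fun_sum fun n _ => ?_
    have d1 : HasDerivAt (fun τ : ℝ => Real.log n / Real.log τ)
        (-(Real.log n * τ⁻¹) / (Real.log τ) ^ 2) τ := by
      have := (hasDerivAt_const τ (Real.log n)).div (Real.hasDerivAt_log (by linarith : τ ≠ 0)) hL.ne'
      refine this.congr_deriv ?_
      ring
    have d2 : HasDerivAt φ (deriv φ (Real.log n / Real.log τ)) (Real.log n / Real.log τ) :=
      (h.cd.differentiable (by simp)).differentiableAt.hasDerivAt
    have d3 := d2.scomp τ d1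
    have d4 := (d3.const_mul (W182.KO.dk k n : ℂ)).mul_const ((n : ℂ) ^ (-(1 / 2 + I * t) : ℂ))
    refine d4.congr_deriv ?_
    unfold dph
    have hLc : (Real.log τ : ℂ) ≠ 0 := by exact_mod_cast hL.ne'
    have hτc : (τ : ℂ) ≠ 0 := by exact_mod_cast (by linarith : τ ≠ 0)
    simp only [Complex.real_smul]
    push_cast
    field_simp
  have hφ1c : Continuous (dph φ) := (dph_TS h).cd.continuous
  have hcont : ContinuousOn (fun τ : ℝ => ((-(τ * Real.log τ)⁻¹ : ℝ) : ℂ) * ∑ n ∈ Finset.range N,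
      (W182.KO.dk k n : ℂ) * dph φ (Real.log n / Real.log τ) * (n : ℂ) ^ (-(1 / 2 + I * t) : ℂ)) (uIcc T1 T2) := by
    rw [uIcc_of_le hT]
    have c0 : ContinuousOn (fun τ : ℝ => Real.log τ) (Icc T1 T2) :=
      Real.continuousOn_log.mono fun τ hτ => by
        have : 1 < τ := hT1.trans_le hτ.1
        simp only [mem_compl_iff, mem_singleton_iff]; linarith
    have c1 : ContinuousOn (fun τ : ℝ => -(τ * Real.log τ)⁻¹) (Icc T1 T2) := by
      refine ((continuousOn_id.mul c0).inv₀ fun τ hτ => ?_).neg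
      have h1 : 1 < τ := hT1.trans_le hτ.1
      have h2 := Real.log_pos h1
      have h3 : 0 < τ * Real.log τ := mul_pos (by linarith) h2
      exact h3.ne'
    refine (Complex.continuous_ofReal.comp_continuousOn c1).mul ?_
    refine continuousOn_finset_sum _ fun n _ => ?_
    refine (continuousOn_const.mul (hφ1c.comp_continuousOn (continuousOn_const.div c0 fun τ hτ => ?_))).mul
      continuousOn_const
    exact (Real.log_pos (hT1.trans_le hτ.1)).ne'
  have hF := intervalIntegral.integral_eq_sub_of_hasDerivAt hd hcont.intervalIntegrable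
  rw [f1 T2 ⟨hT, le_rfl⟩, f1 T1 ⟨le_rfl, hT⟩, ← hF, intervalIntegral.integral_of_le hT,
    ← integral_indicator measurableSet_Ioc]
  refine integral_congr_ae (Eventually.of_forall fun τ => ?_)
  simp only
  unfold kap
  by_cases hτ : τ ∈ Ioc T1 T2
  · rw [indicator_of_mem hτ, indicator_of_mem hτ, f2 τ ⟨hτ.1.le, hτ.2⟩]
  · rw [indicator_of_notMem hτ, indicator_of_notMem hτ, zero_mul]

/-- the mean square of the difference of the polynomials with parameters `T` and `r T` over a window is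
smaller than the moment by a factor `log² T` -/
theorem DP_diff (h : TS φ) (k : ℕ) {a b r : ℝ} (ha : 0 < a) (hab : a ≤ b) (hr : 1 ≤ r) :
    ∃ C T0 : ℝ, 0 ≤ C ∧ Real.exp 1 ≤ T0 ∧ ∀ T : ℝ, T0 ≤ T →
      ∫⁻ t in Icc (a * T) (b * T), ‖DP φ k (r * T) t - DP φ k T t‖ₑ ^ 2 ≤
        ENNReal.ofReal (C / Real.log T ^ 2 * (M (zr k 0) ((a + b * r) * T) + 1)) := by
  have D := zdat k (u := 1) le_rfl
  have hb : 0 < b := lt_of_lt_of_le ha hab
  have hr0 : 0 < r := by linarith
  have har : a / r ≤ b := (div_le_self ha.le hr).trans hab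
  obtain ⟨C1, T1, hC1, hT1, h1⟩ := DP_mass (dph_TS h) k (a := a / r) (b := b) (by positivity) har
  refine ⟨C1 * (r - 1) ^ 2, T1, by positivity, hT1, fun T hT => ?_⟩
  have hTe : Real.exp 1 ≤ T := hT1.trans hT
  have hT0 : 0 < T := (Real.exp_pos 1).trans_le hTe
  have hT1' : 1 < T := by have := Real.add_one_lt_exp (x := 1) (by norm_num); linarith
  have hL : 1 ≤ Real.log T := by rwa [Real.le_log_iff_exp_le hT0]
  have hTr : T ≤ r * T := le_mul_of_one_le_left hT0.le hr
  set Mb : ℝ := M (zr k 0) ((a + b * r) * T) with hMb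
  have hm : 0 ≤ Mb := M_nonneg _ (by positivity)
  obtain ⟨X', hX0', hX'⟩ := (dph_TS h).tf
  obtain ⟨N, hN⟩ := DP_fin hX' hX0' k (r * T)
  -- the measurable integrand
  set Gf : ℝ × ℝ → ℂ := fun p => (Icc (a * T) (b * T)).indicator (fun _ => (1:ℂ)) p.1 *
    ((Ioc T (r * T)).indicator (fun _ => (1:ℂ)) p.2 * ∑ n ∈ Finset.range N,
      (W182.KO.dk k n : ℂ) * dph φ (Real.log n / Real.log p.2) * (n : ℂ) ^ (-(1 / 2 + I * p.1) : ℂ)) with hGf
  have hφ1c : Continuous (dph φ) := (dph_TS h).cd.continuous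
  have hGm : Measurable Gf := by
    refine ((measurable_const.indicator measurableSet_Icc).comp measurable_fst).mul
      (((measurable_const.indicator measurableSet_Ioc).comp measurable_snd).mul ?_)
    refine Finset.measurable_fun_sum _ fun n _ => ?_
    refine (measurable_const.mul (hφ1c.measurable.comp
      (measurable_const.div (Real.measurable_log.comp measurable_snd)))).mul ?_
    rcases Nat.eq_zero_or_pos n with h0 | h0
    · subst h0
      have : ∀ p : ℝ × ℝ, ((0:ℕ) : ℂ) ^ (-(1 / 2 + I * p.1) : ℂ) = 0 := by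
        intro p
        rw [Nat.cast_zero, Complex.zero_cpow]
        intro hc
        have := congrArg Complex.re hc
        simp at this
      simp_rw [this]
      exact measurable_const
    · have hn : (n : ℂ) ≠ 0 := by exact_mod_cast h0.ne'
      have hc : Continuous fun p : ℝ × ℝ => (n : ℂ) ^ (-(1 / 2 + I * p.1) : ℂ) :=
        Continuous.const_cpow (by fun_prop) (Or.inl hn)
      exact hc.measurable
  have hcs := cs_ineq (κ := kap T (r * T)) (G := Gf) (kap_meas _ _) hGm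
  have e1 : ∫⁻ t in Icc (a * T) (b * T), ‖DP φ k (r * T) t - DP φ k T t‖ₑ ^ 2 =
      ∫⁻ t, ‖∫ τ, kap T (r * T) τ * Gf (t, τ)‖ₑ ^ 2 := by
    rw [← lintegral_indicator measurableSet_Icc]
    refine lintegral_congr fun t => ?_
    by_cases ht : t ∈ Icc (a * T) (b * T)
    · rw [indicator_of_mem ht, DP_param h k hT1' hTr]
      congr 2
      refine integral_congr_ae (Eventually.of_forall fun τ => ?_)
      simp only [hGf, indicator_of_mem ht, one_mul]
      by_cases hτ : τ ∈ Ioc T (r * T)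
      · rw [indicator_of_mem hτ, one_mul, hN τ (hT1'.trans hτ.1) hτ.2 N le_rfl t]
      · unfold kap
        rw [indicator_of_notMem hτ, zero_mul, zero_mul]
    · rw [indicator_of_notMem ht]
      simp only [hGf, indicator_of_notMem ht, zero_mul, mul_zero, integral_zero, enorm_zero]
      norm_num
  have e2 : ∀ τ : ℝ, ‖kap T (r * T) τ‖ₑ * ∫⁻ t, ‖Gf (t, τ)‖ₑ ^ 2 ≤
      ‖kap T (r * T) τ‖ₑ * ENNReal.ofReal (C1 * (Mb + 1)) := by
    intro τ
    by_cases hτ : τ ∈ Ioc T (r * T)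
    · refine mul_le_mul' le_rfl ?_
      have i1 : ∫⁻ t, ‖Gf (t, τ)‖ₑ ^ 2 = ∫⁻ t in Icc (a * T) (b * T), ‖DP (dph φ) k τ t‖ₑ ^ 2 := by
        rw [← lintegral_indicator measurableSet_Icc]
        refine lintegral_congr fun t => ?_
        by_cases ht : t ∈ Icc (a * T) (b * T)
        · simp only [hGf, indicator_of_mem ht, indicator_of_mem hτ, one_mul]
          rw [hN τ (hT1'.trans hτ.1) hτ.2 N le_rfl t]
        · simp only [hGf, indicator_of_notMem ht, zero_mul, enorm_zero]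
          norm_num
      rw [i1]
      have hsub : Icc (a * T) (b * T) ⊆ Icc (a / r * τ) (b * τ) := by
        refine Icc_subset_Icc ?_ ?_
        · rw [div_mul_eq_mul_div, div_le_iff₀ hr0]
          nlinarith [hτ.2]
        · nlinarith [hτ.1]
      refine (lintegral_mono_set hsub).trans ((h1 τ (hT.trans hτ.1.le)).trans ?_)
      refine ENNReal.ofReal_le_ofReal ?_
      have h2 : M (zr k 0) ((a / r + b) * τ) ≤ Mb := by
        refine M_mono D ?_
        have i2 : (a / r + b) * τ ≤ (a / r + b) * (r * T) := by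
          have := hτ.2
          gcongr
        have i3 : (a / r + b) * (r * T) = (a + b * r) * T := by field_simp
        linarith
      gcongr
    · unfold kap
      rw [indicator_of_notMem hτ, enorm_zero, zero_mul, zero_mul]
  have e3 : ∫⁻ τ, ‖kap T (r * T) τ‖ₑ ≤ ENNReal.ofReal ((r - 1) / Real.log T) := by
    calc ∫⁻ τ, ‖kap T (r * T) τ‖ₑ ≤ ∫⁻ τ, (Ioc T (r * T)).indicator
          (fun _ => ENNReal.ofReal (1 / (T * Real.log T))) τ := by
          refine lintegral_mono fun τ => ?_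
          unfold kap
          by_cases hτ : τ ∈ Ioc T (r * T)
          · rw [indicator_of_mem hτ, indicator_of_mem hτ, ← ofReal_norm, Complex.norm_real, norm_neg,
              Real.norm_eq_abs]
            refine ENNReal.ofReal_le_ofReal ?_
            have i1 : Real.log T ≤ Real.log τ := Real.log_le_log hT0 hτ.1.le
            have i2 : 0 < τ := hT0.trans hτ.1
            have i3 : 0 < Real.log τ := by linarith
            rw [abs_of_nonneg (by positivity), one_div]
            have := hτ.1.le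
            gcongr
          · rw [indicator_of_notMem hτ, indicator_of_notMem hτ, enorm_zero]
      _ = ENNReal.ofReal (1 / (T * Real.log T)) * ENNReal.ofReal (r * T - T) := by
          rw [lintegral_indicator measurableSet_Ioc, setLIntegral_const, Real.volume_Ioc]
      _ = _ := by
          rw [← ENNReal.ofReal_mul (by positivity)]
          congr 1
          field_simp
  rw [e1]
  refine hcs.trans ?_
  calc (∫⁻ τ, ‖kap T (r * T) τ‖ₑ) * ∫⁻ τ, ‖kap T (r * T) τ‖ₑ * ∫⁻ t, ‖Gf (t, τ)‖ₑ ^ 2 ≤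
      (∫⁻ τ, ‖kap T (r * T) τ‖ₑ) * ∫⁻ τ, ‖kap T (r * T) τ‖ₑ * ENNReal.ofReal (C1 * (Mb + 1)) := by
        exact mul_le_mul' le_rfl (lintegral_mono fun τ => e2 τ)
    _ = (∫⁻ τ, ‖kap T (r * T) τ‖ₑ) * ((∫⁻ τ, ‖kap T (r * T) τ‖ₑ) * ENNReal.ofReal (C1 * (Mb + 1))) := by
        rw [lintegral_mul_const _ (kap_meas _ _).enorm]
    _ ≤ ENNReal.ofReal ((r - 1) / Real.log T) * (ENNReal.ofReal ((r - 1) / Real.log T) *
        ENNReal.ofReal (C1 * (Mb + 1))) := by gcongr
    _ = ENNReal.ofReal ((r - 1) / Real.log T * ((r - 1) / Real.log T * (C1 * (Mb + 1)))) := by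
        have : 0 ≤ (r - 1) / Real.log T := div_nonneg (by linarith) (by linarith)
        rw [← ENNReal.ofReal_mul this, ← ENNReal.ofReal_mul this]
    _ = _ := by
        congr 1
        ring

end

end Pool.Agent.K4H6.SV
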