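import Pool.Agent.K4H6.SV.C

set_option autoImplicit false

/-! Smooth weights over the windows. -/

namespace Pool.Agent.K4H6.SV

open Complex MeasureTheory Filter Topology Set Pool.Agent.TH535.SM Pool.Agent.K4H66.OL Pool.Agent.K4H66.HL
open Pool.Agent.R446.KR
open scoped ComplexConjugate FourierTransform ContDiff ENNReal Convolution

noncomputable section

variable {φ : ℝ → ℂ}

/-- the weighted mean square -/
def Iw (φ : ℝ → ℂ) (k : ℕ) (w : ℝ → ℝ) (T : ℝ) : ℝ := ∫ t, w (t / T) * ‖DP φ k T t‖ ^ 2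

/-- test weights: continuously differentiable, supported in `[α, β]` with `0 < α` -/
structure Wt (w : ℝ → ℝ) (α β : ℝ) : Prop where
  d : ContDiff ℝ 1 w
  s : ∀ x, x ∉ Icc α β → w x = 0
  α0 : 0 < α
  αβ : α < β

lemma Wt.z1 {w : ℝ → ℝ} {α β : ℝ} (h : Wt w α β) : w α = 0 := by
  have hc := h.d.continuous
  have h1 : Tendsto w (𝓝[<] α) (𝓝 (w α)) := hc.continuousAt.mono_left nhdsWithin_le_nhds
  have h2 : Tendsto w (𝓝[<] α) (𝓝 0) := by
    refine tendsto_const_nhds.congr' ?_
    filter_upwards [self_mem_nhdsWithin] with x hx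
    exact (h.s x fun hc => not_le.2 hx hc.1).symm
  exact tendsto_nhds_unique h1 h2

lemma Wt.z2 {w : ℝ → ℝ} {α β : ℝ} (h : Wt w α β) : w β = 0 := by
  have hc := h.d.continuous
  have h1 : Tendsto w (𝓝[>] β) (𝓝 (w β)) := hc.continuousAt.mono_left nhdsWithin_le_nhds
  have h2 : Tendsto w (𝓝[>] β) (𝓝 0) := by
    refine tendsto_const_nhds.congr' ?_
    filter_upwards [self_mem_nhdsWithin] with x hx
    exact (h.s x fun hc => not_le.2 hx hc.2).symm
  exact tendsto_nhds_unique h1 h2

lemma Iw_eq {w : ℝ → ℝ} {α β : ℝ} (hw : Wt w α β) (k : ℕ) {T : ℝ} (hT : 1 < T) :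
    Iw φ k w T = ∫ t in (α * T)..(β * T), w (t / T) * ‖DP φ k T t‖ ^ 2 := by
  have hT0 : 0 < T := by linarith
  have hle : α * T ≤ β * T := by have := hw.αβ.le; gcongr
  unfold Iw
  rw [intervalIntegral.integral_of_le hle, ← integral_indicator measurableSet_Ioc]
  refine integral_congr_ae (Eventually.of_forall fun t => ?_)
  simp only
  by_cases ht : t ∈ Ioc (α * T) (β * T)
  · rw [indicator_of_mem ht]
  · rw [indicator_of_notMem ht]
    have h1 : w (t / T) = 0 := by
      by_cases h2 : t / T = α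
      · rw [h2, hw.z1]
      · refine hw.s _ fun hc => ht ⟨?_, ?_⟩
        · have h3 : α < t / T := lt_of_le_of_ne hc.1 (Ne.symm h2)
          rwa [lt_div_iff₀ hT0] at h3
        · rw [← div_le_iff₀ hT0]; exact hc.2
    rw [h1, zero_mul]

/-- integration by parts -/
lemma Iw_parts (h : TS φ) {w : ℝ → ℝ} {α β : ℝ} (hw : Wt w α β) (k : ℕ) {T : ℝ} (hT : 1 < T) :
    Iw φ k w T = -∫ x in α..β, deriv w x * Wm φ k T α x := by
  have hT0 : 0 < T := by linarith
  have hcD := DP_cont h k hT
  have hF : Continuous (fun t => ‖DP φ k T t‖ ^ 2) := hcD.norm.pow 2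
  have hdw : Continuous (deriv w) := hw.d.continuous_deriv le_rfl
  have h1 : ∫ t in (α * T)..(β * T), w (t / T) * ‖DP φ k T t‖ ^ 2 =
      ∫ x in α..β, w x * (T * ‖DP φ k T (x * T)‖ ^ 2) := by
    have h2 := intervalIntegral.integral_comp_mul_right
      (fun t => w (t / T) * ‖DP φ k T t‖ ^ 2) (a := α) (b := β) hT0.ne'
    rw [smul_eq_mul, eq_inv_mul_iff_mul_eq₀ hT0.ne', ← intervalIntegral.integral_const_mul] at h2
    rw [← h2]
    refine intervalIntegral.integral_congr fun x _ => ?_
    rw [mul_div_cancel_right₀ _ hT0.ne']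
    ring
  have hG : ∀ x ∈ uIcc α β, HasDerivAt (fun x => Wm φ k T α x) (T * ‖DP φ k T (x * T)‖ ^ 2) x := by
    intro x _
    have h3 : HasDerivAt (fun y => ∫ t in (α * T)..y, ‖DP φ k T t‖ ^ 2) (‖DP φ k T (x * T)‖ ^ 2) (x * T) :=
      intervalIntegral.integral_hasDerivAt_right (hF.intervalIntegrable _ _)
        (hF.stronglyMeasurableAtFilter _ _) hF.continuousAt
    have h4 : HasDerivAt (fun x : ℝ => x * T) T x := by simpa using (hasDerivAt_id x).mul_const T
    have h5 := h3.comp x h4
    refine h5.congr_deriv ?_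
    ring
  have hw' : ∀ x ∈ uIcc α β, HasDerivAt w (deriv w x) x := fun x _ =>
    (hw.d.differentiable (by norm_num)).differentiableAt.hasDerivAt
  have h6 := intervalIntegral.integral_mul_deriv_eq_deriv_mul hw' hG
    (hdw.intervalIntegrable _ _) ((by fun_prop : Continuous fun x => T * ‖DP φ k T (x * T)‖ ^ 2).intervalIntegrable _ _)
  rw [Iw_eq hw k hT, h1, h6, hw.z1, hw.z2]
  ring

lemma Wt.int {w : ℝ → ℝ} {α β : ℝ} (hw : Wt w α β) : ∫ x, w x = ∫ x in α..β, w x := by
  rw [intervalIntegral.integral_of_le hw.αβ.le, ← integral_indicator measurableSet_Ioc]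
  refine integral_congr_ae (Eventually.of_forall fun x => ?_)
  by_cases hx : x ∈ Ioc α β
  · rw [indicator_of_mem hx]
  · rw [indicator_of_notMem hx]
    by_cases h2 : x = α
    · rw [h2, hw.z1]
    · exact hw.s _ fun hc => hx ⟨lt_of_le_of_ne hc.1 (Ne.symm h2), hc.2⟩

/-- **Weighted mean squares** -/
theorem weighted {k : ℕ} (h : TS φ) {c' : ℝ}
    (hW : ∀ a b : ℝ, 0 < a → a ≤ b → Tendsto (fun T => Wm φ k T a b / NN (k ^ 2) T) atTop (𝓝 (c' * (b - a))))
    {w : ℝ → ℝ} {α β : ℝ} (hw : Wt w α β) :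
    Tendsto (fun T => Iw φ k w T / NN (k ^ 2) T) atTop (𝓝 (c' * ∫ x, w x)) := by
  have hdw : Continuous (deriv w) := hw.d.continuous_deriv le_rfl
  obtain ⟨C, hC⟩ := isCompact_Icc.exists_bound_of_continuousOn (s := Icc α β) hdw.continuousOn
  have hC0 : 0 ≤ C := (norm_nonneg _).trans (hC α ⟨le_rfl, hw.αβ.le⟩)
  have hlim : Tendsto (fun T => ∫ x in α..β, deriv w x * (Wm φ k T α x / NN (k ^ 2) T)) atTop
      (𝓝 (∫ x in α..β, deriv w x * (c' * (x - α)))) := by
    refine intervalIntegral.tendsto_integral_filter_of_dominated_convergence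
      (fun _ => C * (|c' * (β - α)| + 1)) ?_ ?_ intervalIntegrable_const ?_
    · filter_upwards [eventually_gt_atTop 1] with T hT
      have hF : Continuous (fun t => ‖DP φ k T t‖ ^ 2) := (DP_cont h k hT).norm.pow 2
      have h1 : Continuous (fun x => Wm φ k T α x) := by
        unfold Wm
        exact (intervalIntegral.continuous_primitive (fun a b => hF.intervalIntegrable a b) (α * T)).comp
          (continuous_id.mul continuous_const)
      exact (hdw.mul (h1.div_const _)).aestronglyMeasurable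
    · have h1 := (hW α β hw.α0 hw.αβ.le).eventually_lt_const
        (show c' * (β - α) < |c' * (β - α)| + 1 by have := le_abs_self (c' * (β - α)); linarith)
      filter_upwards [h1, eventually_gt_atTop 1] with T h2 hT
      have hN := NN_pos (k ^ 2) hT
      have hT0 : 0 ≤ T := by linarith
      refine Eventually.of_forall fun x hx => ?_
      rw [uIoc_of_le hw.αβ.le] at hx
      rw [norm_mul]
      have h3 := hC x ⟨hx.1.le, hx.2⟩
      have h4 : 0 ≤ Wm φ k T α x := Wm_nonneg _ _ hT0 hx.1.le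
      have h5 : Wm φ k T α x ≤ Wm φ k T α β := by
        have := Wm_add h k hT α x β
        have := Wm_nonneg φ k hT0 hx.2
        linarith
      rw [Real.norm_of_nonneg (div_nonneg h4 hN.le)]
      have h6 : Wm φ k T α x / NN (k ^ 2) T ≤ |c' * (β - α)| + 1 :=
        (div_le_div_of_nonneg_right h5 hN.le).trans h2.le
      exact mul_le_mul h3 h6 (div_nonneg h4 hN.le) hC0
    · refine Eventually.of_forall fun x hx => ?_
      rw [uIoc_of_le hw.αβ.le] at hx
      exact (hW α x hw.α0 hx.1.le).const_mul _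
  have hval : ∫ x in α..β, deriv w x * (c' * (x - α)) = -(c' * ∫ x, w x) := by
    have hv : ∀ x ∈ uIcc α β, HasDerivAt (fun x : ℝ => c' * (x - α)) c' x := fun x _ => by
      simpa using ((hasDerivAt_id x).sub_const α).const_mul c'
    have hw' : ∀ x ∈ uIcc α β, HasDerivAt w (deriv w x) x := fun x _ =>
      (hw.d.differentiable (by norm_num)).differentiableAt.hasDerivAt
    have h6 := intervalIntegral.integral_mul_deriv_eq_deriv_mul hw' hv
      (hdw.intervalIntegrable _ _) intervalIntegrable_const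
    rw [hw.z1, hw.z2, intervalIntegral.integral_mul_const, zero_mul, zero_mul, sub_zero, zero_sub] at h6
    rw [hw.int]
    linarith
  rw [hval] at hlim
  have h7 := hlim.neg
  rw [neg_neg] at h7
  refine h7.congr' ?_
  filter_upwards [eventually_gt_atTop 1] with T hT
  rw [Iw_parts h hw k hT, neg_div, ← intervalIntegral.integral_div]
  congr 1
  refine intervalIntegral.integral_congr fun x _ => ?_
  ring

/-- monotonicity in the weight: from below -/
lemma Iw_le_mD (h : TS φ) (k : ℕ) {w : ℝ → ℝ} {α β : ℝ} (hw : Wt w α β) (hα : 1 ≤ α) (hβ : β ≤ 2)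
    (h0 : ∀ x, 0 ≤ w x) (h1 : ∀ x, w x ≤ 1) {T : ℝ} (hT : 1 < T) : Iw φ k w T ≤ mD φ k T := by
  have hT0 : 0 < T := by linarith
  have hF : Continuous (fun t => ‖DP φ k T t‖ ^ 2) := (DP_cont h k hT).norm.pow 2
  have hwc := hw.d.continuous
  rw [Iw_eq hw k hT]
  have hle : α * T ≤ β * T := by have := hw.αβ.le; gcongr
  calc ∫ t in (α * T)..(β * T), w (t / T) * ‖DP φ k T t‖ ^ 2 ≤ ∫ t in (α * T)..(β * T), ‖DP φ k T t‖ ^ 2 := by
        refine intervalIntegral.integral_mono_on hle ((by fun_prop : Continuous fun t =>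
          w (t / T) * ‖DP φ k T t‖ ^ 2).intervalIntegrable _ _) (hF.intervalIntegrable _ _) fun t _ => ?_
        have := h1 (t / T)
        have h3 : 0 ≤ ‖DP φ k T t‖ ^ 2 := by positivity
        nlinarith
    _ ≤ mD φ k T := by
        unfold mD
        rw [intervalIntegral.integral_of_le hle, intervalIntegral.integral_of_le (by linarith)]
        refine setIntegral_mono_set ?_ (Eventually.of_forall fun t => by positivity) ?_
        · exact (hF.continuousOn.integrableOn_Icc (a := T) (b := 2 * T)).mono_set Ioc_subset_Icc_self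
        · refine (Ioc_subset_Ioc ?_ ?_).eventuallyLE
          · nlinarith
          · nlinarith

/-- monotonicity in the weight: from above -/
lemma mD_le_Iw (h : TS φ) (k : ℕ) {w : ℝ → ℝ} {α β : ℝ} (hw : Wt w α β) (hα : α ≤ 1) (hβ : 2 ≤ β)
    (h0 : ∀ x, 0 ≤ w x) (h1 : ∀ x ∈ Icc (1:ℝ) 2, 1 ≤ w x) {T : ℝ} (hT : 1 < T) : mD φ k T ≤ Iw φ k w T := by
  have hT0 : 0 < T := by linarith
  have hF : Continuous (fun t => ‖DP φ k T t‖ ^ 2) := (DP_cont h k hT).norm.pow 2
  have hwc := hw.d.continuous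
  have hc : Continuous fun t => w (t / T) * ‖DP φ k T t‖ ^ 2 := by fun_prop
  rw [Iw_eq hw k hT]
  have hle : α * T ≤ β * T := by have := hw.αβ.le; gcongr
  calc mD φ k T ≤ ∫ t in T..(2 * T), w (t / T) * ‖DP φ k T t‖ ^ 2 := by
        unfold mD
        refine intervalIntegral.integral_mono_on (by linarith) (hF.intervalIntegrable _ _)
          (hc.intervalIntegrable _ _) fun t ht => ?_
        have h2 : 1 ≤ w (t / T) := by
          refine h1 _ ⟨?_, ?_⟩
          · rw [le_div_iff₀ hT0]; linarith [ht.1]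
          · rw [div_le_iff₀ hT0]; exact ht.2
        have h3 : 0 ≤ ‖DP φ k T t‖ ^ 2 := by positivity
        nlinarith
    _ ≤ _ := by
        rw [intervalIntegral.integral_of_le hle, intervalIntegral.integral_of_le (by linarith)]
        refine setIntegral_mono_set ?_ (Eventually.of_forall fun t => mul_nonneg (h0 _) (by positivity)) ?_
        · exact (hc.continuousOn.integrableOn_Icc (a := α * T) (b := β * T)).mono_set Ioc_subset_Icc_self
        · refine (Ioc_subset_Ioc ?_ ?_).eventuallyLE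
          · nlinarith
          · nlinarith

end

end Pool.Agent.K4H6.SV
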