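import Pool.Agent.K4H6.SV.D
import Mathlib.Analysis.Distribution.SchwartzSpace.Fourier

set_option autoImplicit false

/-! Smooth short-interval sums: Plancherel. -/

namespace Pool.Agent.K4H6.SV

open Complex MeasureTheory Filter Topology Set Pool.Agent.TH535.SM Pool.Agent.K4H66.OL Pool.Agent.K4H66.HL
open Pool.Agent.R446.KR
open scoped ComplexConjugate FourierTransform ContDiff ENNReal Convolution SchwartzMap

noncomputable section

/-- the coefficients -/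
def cf (k : ℕ) (φ : ℝ → ℝ) (T : ℝ) (n : ℕ) : ℝ := (W182.KO.dk k n : ℝ) * φ (Real.log n / Real.log T) / √n

lemma cf_zero (k : ℕ) (φ : ℝ → ℝ) (T : ℝ) : cf k φ T 0 = 0 := by unfold cf; simp

/-- the short-interval sum at the point `exp v` -/
def Sv (k : ℕ) (φ : ℝ → ℝ) (K : ℝ → ℂ) (T v : ℝ) : ℂ := ∑' n : ℕ, (cf k φ T n : ℂ) * K (T * (Real.log n - v))

variable {φ : ℝ → ℝ}

lemma fin_rep (h : TS (cx φ)) (k : ℕ) {T : ℝ} (hT : 1 < T) : ∃ N : ℕ,
    (∀ n : ℕ, N ≤ n → cf k φ T n = 0) ∧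
    (∀ t : ℝ, DP (cx φ) k T t = ∑ n ∈ Finset.range N, (cf k φ T n : ℂ) * cexp (-(t * Real.log n) * I)) := by
  obtain ⟨X, hX0, hX⟩ := h.tf
  have hL : 0 < Real.log T := Real.log_pos hT
  have hz : ∀ n : ℕ, ⌈Real.exp (X * Real.log T)⌉₊ + 1 ≤ n → φ (Real.log n / Real.log T) = 0 := by
    intro n hn
    have h1 : Real.exp (X * Real.log T) < n := by
      refine (Nat.le_ceil _).trans_lt ?_
      exact_mod_cast lt_of_lt_of_le (Nat.lt_succ_self _) hn
    have h2 : X < Real.log n / Real.log T := by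
      rw [lt_div_iff₀ hL]
      have hn0 : (0:ℝ) < n := (Real.exp_pos _).trans h1
      exact (Real.lt_log_iff_exp_lt hn0).2 h1
    have := hX.sp _ h2
    unfold cx at this
    exact_mod_cast this
  refine ⟨⌈Real.exp (X * Real.log T)⌉₊ + 1, fun n hn => ?_, fun t => ?_⟩
  · unfold cf
    rw [hz n hn]
    simp
  · unfold DP
    rw [tsum_eq_sum (s := Finset.range (⌈Real.exp (X * Real.log T)⌉₊ + 1)) (fun n hn => by
      rw [Finset.mem_range, not_lt] at hn
      unfold cx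
      rw [hz n hn]
      simp)]
    refine Finset.sum_congr rfl fun n _ => ?_
    rcases Nat.eq_zero_or_pos n with h0 | h0
    · subst h0; rw [dk_zero, cf_zero]; simp
    · have h3 := W182.KO.cpow_eq h0 (1 / 2) t
      have e1 : (-(1 / 2 + I * t) : ℂ) = -(((1 / 2 : ℝ) : ℂ) + t * I) := by push_cast; ring
      rw [e1, h3]
      unfold cf cx
      have hn : (0:ℝ) < n := by exact_mod_cast h0
      have e2 : ((n : ℝ) ^ (-(1 / 2) : ℝ)) = (√n)⁻¹ := by
        rw [Real.rpow_neg hn.le, Real.sqrt_eq_rpow]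
      rw [e2, div_eq_mul_inv ((W182.KO.dk k n : ℝ) * φ (Real.log n / Real.log T))]
      generalize (√(n:ℝ))⁻¹ = r
      push_cast
      ring

lemma DP_even (h : TS (cx φ)) (k : ℕ) {T : ℝ} (hT : 1 < T) (t : ℝ) :
    ‖DP (cx φ) k T (-t)‖ = ‖DP (cx φ) k T t‖ := by
  obtain ⟨N, -, hN⟩ := fin_rep h k hT
  rw [← Complex.norm_conj (DP (cx φ) k T t), hN, hN, map_sum]
  congr 1
  refine Finset.sum_congr rfl fun n _ => ?_
  rw [map_mul, Complex.conj_ofReal, ← Complex.exp_conj]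
  congr 2
  simp only [map_mul, map_neg, Complex.conj_I, Complex.conj_ofReal]
  push_cast
  ring

/-- a Schwartz function decays -/
lemma sch_dec (K : 𝓢(ℝ, ℂ)) : Dec K := by
  obtain ⟨C0, -, h0⟩ := K.decay 0 0
  obtain ⟨C2, -, h2⟩ := K.decay 2 0
  refine ⟨K.continuous, 2 * (|C0| + |C2|), by positivity, fun t => ?_⟩
  have a0 := h0 t
  have a2 := h2 t
  simp only [pow_zero, one_mul, norm_iteratedFDeriv_zero, Real.norm_eq_abs] at a0 a2
  rw [← div_eq_mul_inv, le_div_iff₀ (by positivity)]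
  have b0 := le_abs_self C0
  have b2 := le_abs_self C2
  have ht := abs_nonneg t
  have hn := norm_nonneg (K t)
  nlinarith [sq_nonneg (1 - |t|), mul_nonneg hn (sq_nonneg (1 - |t|))]

lemma dec_dil {K : ℝ → ℂ} (hK : Dec K) {T : ℝ} (hT : 1 ≤ T) (l : ℝ) : Dec (fun v => K (T * (l - v))) := by
  obtain ⟨B, hB, hb⟩ := hK.bd
  refine ⟨hK.cont.comp (by fun_prop), B * (1 + |l|) ^ 2, by positivity, fun v => (hb _).trans ?_⟩
  have h1 : 1 + |v| ≤ (1 + |l|) * (1 + |T * (l - v)|) := by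
    rw [abs_mul, abs_of_nonneg (by linarith : (0:ℝ) ≤ T)]
    have h2 : |v| ≤ |l| + |l - v| := by
      have := abs_sub_abs_le_abs_sub v l
      rw [abs_sub_comm v l] at this
      linarith
    have h3 : |l - v| ≤ T * |l - v| := le_mul_of_one_le_left (abs_nonneg _) hT
    have := abs_nonneg l
    have := abs_nonneg (l - v)
    nlinarith [mul_nonneg (abs_nonneg l) (mul_nonneg (by linarith : (0:ℝ) ≤ T) (abs_nonneg (l - v)))]
  have h4 : (0:ℝ) < 1 + |v| := by positivity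
  have h5 : (0:ℝ) < 1 + |T * (l - v)| := by positivity
  rw [mul_assoc]
  refine mul_le_mul_of_nonneg_left ?_ hB
  rw [← one_div, ← one_div, mul_one_div, div_le_div_iff₀ (by positivity) (by positivity), one_mul, ← mul_pow]
  gcongr

lemma ft_dil {K : ℝ → ℂ} {T : ℝ} (hT : 0 < T) (l w : ℝ) :
    𝓕 (fun v => K (T * (l - v))) w = (1 / T : ℂ) * cexp (-(2 * Real.pi * w * l * I)) * 𝓕 K (-(w / T)) := by
  rw [ft_eq, ft_eq]
  have h1 := integral_sub_left_eq_self (μ := volume)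
    (fun u : ℝ => cexp (-(2 * Real.pi * w * ((l - u : ℝ) : ℂ) * I)) * K (T * u)) l
  have e1 : (∫ t : ℝ, cexp (-(2 * Real.pi * w * t * I)) * K (T * (l - t))) =
      ∫ x : ℝ, cexp (-(2 * Real.pi * w * ((l - (l - x) : ℝ) : ℂ) * I)) * K (T * (l - x)) := by
    refine integral_congr_ae (Eventually.of_forall fun x => ?_)
    simp only [sub_sub_cancel]
  rw [e1, h1]
  have h2 := Measure.integral_comp_mul_left
    (fun y : ℝ => cexp (-(2 * Real.pi * w * ((l - y / T : ℝ) : ℂ) * I)) * K y) T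
  have e2 : (∫ u : ℝ, cexp (-(2 * Real.pi * w * ((l - u : ℝ) : ℂ) * I)) * K (T * u)) =
      ∫ x : ℝ, cexp (-(2 * Real.pi * w * ((l - T * x / T : ℝ) : ℂ) * I)) * K (T * x) := by
    refine integral_congr_ae (Eventually.of_forall fun x => ?_)
    simp only [mul_div_cancel_left₀ x hT.ne']
  have hTc : (T : ℂ) ≠ 0 := by exact_mod_cast hT.ne'
  have e3 : (∫ y : ℝ, cexp (-(2 * Real.pi * w * ((l - y / T : ℝ) : ℂ) * I)) * K y) =
      cexp (-(2 * Real.pi * w * l * I)) * ∫ y : ℝ, cexp (-(2 * Real.pi * ((-(w / T) : ℝ) : ℂ) * y * I)) * K y := by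
    rw [← integral_const_mul]
    refine integral_congr_ae (Eventually.of_forall fun y => ?_)
    simp only
    rw [← mul_assoc, ← Complex.exp_add]
    congr 2
    push_cast
    field_simp
    ring
  rw [e2, h2, e3, abs_of_pos (inv_pos.2 hT), Complex.real_smul]
  push_cast
  ring

lemma dec_zero : Dec (fun _ => (0:ℂ)) := ⟨continuous_const, 0, le_rfl, fun t => by simp⟩

lemma Sv_fin (h : TS (cx φ)) (k : ℕ) {K : ℝ → ℂ} (hK : Dec K) {T : ℝ} (hT : 1 < T) :
    Dec (Sv k φ K T) ∧ ∀ w : ℝ, 𝓕 (Sv k φ K T) w = (1 / T : ℂ) * DP (cx φ) k T (2 * Real.pi * w) * 𝓕 K (-(w / T)) := by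
  obtain ⟨N, hN0, hN⟩ := fin_rep h k hT
  have hS : Sv k φ K T = fun v => ∑ n ∈ Finset.range N, (cf k φ T n : ℂ) * K (T * (Real.log n - v)) := by
    funext v
    unfold Sv
    refine tsum_eq_sum fun n hn => ?_
    rw [Finset.mem_range, not_lt] at hn
    rw [hN0 n hn]
    simp
  have key : ∀ s : Finset ℕ, Dec (fun v => ∑ n ∈ s, (cf k φ T n : ℂ) * K (T * (Real.log n - v))) ∧
      ∀ w : ℝ, 𝓕 (fun v => ∑ n ∈ s, (cf k φ T n : ℂ) * K (T * (Real.log n - v))) w =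
        ∑ n ∈ s, (cf k φ T n : ℂ) * ((1 / T : ℂ) * cexp (-(2 * Real.pi * w * Real.log n * I)) * 𝓕 K (-(w / T))) := by
    intro s
    induction s using Finset.induction_on with
    | empty =>
      simp only [Finset.sum_empty]
      refine ⟨dec_zero, fun w => ?_⟩
      rw [ft_eq]
      simp
    | insert n s hn ih =>
      have hd := (dec_dil hK hT.le (Real.log n)).smul (cf k φ T n : ℂ)
      simp only [Finset.sum_insert hn]
      refine ⟨hd.add ih.1, fun w => ?_⟩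
      rw [ft_add hd ih.1, ih.2, ft_smul, ft_dil (by linarith)]
  obtain ⟨k1, k2⟩ := key (Finset.range N)
  rw [hS]
  refine ⟨k1, fun w => ?_⟩
  rw [k2, hN, Finset.mul_sum, Finset.sum_mul]
  refine Finset.sum_congr rfl fun n _ => ?_
  have e : (-(2 * Real.pi * w * Real.log n * I) : ℂ) = -(((2 * Real.pi * w : ℝ) : ℂ) * Real.log n) * I := by
    push_cast; ring
  rw [e]
  ring

/-- the variance -/
def Vv (k : ℕ) (φ : ℝ → ℝ) (K : ℝ → ℂ) (T : ℝ) : ℝ := T * ∫ v, ‖Sv k φ K T v‖ ^ 2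

/-- Plancherel -/
theorem Vv_eq (h : TS (cx φ)) (k : ℕ) {K : ℝ → ℂ} (hK : Dec K) {T : ℝ} (hT : 1 < T) :
    Vv k φ K T = 1 / (2 * Real.pi * T) * ∫ t, ‖𝓕 K (-(t / (2 * Real.pi * T)))‖ ^ 2 * ‖DP (cx φ) k T t‖ ^ 2 := by
  have hT0 : 0 < T := by linarith
  have hp := Real.pi_pos
  obtain ⟨h1, h2⟩ := Sv_fin h k hK hT
  unfold Vv
  rw [← (planch h1).2]
  have e1 : ∀ w, ‖𝓕 (Sv k φ K T) w‖ ^ 2 = (1 / T ^ 2) * (‖𝓕 K (-((2 * Real.pi * w) / (2 * Real.pi * T)))‖ ^ 2 *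
      ‖DP (cx φ) k T (2 * Real.pi * w)‖ ^ 2) := by
    intro w
    rw [h2, norm_mul, norm_mul, mul_pow, mul_pow, mul_div_mul_left _ _ (by positivity : (2 * Real.pi : ℝ) ≠ 0)]
    have : ‖(1 / T : ℂ)‖ = 1 / T := by
      rw [norm_div, norm_one, Complex.norm_real, Real.norm_of_nonneg hT0.le]
    rw [this]
    ring
  simp_rw [e1]
  rw [integral_const_mul, Measure.integral_comp_mul_left
    (fun t => ‖𝓕 K (-(t / (2 * Real.pi * T)))‖ ^ 2 * ‖DP (cx φ) k T t‖ ^ 2) (2 * Real.pi),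
    abs_of_pos (by positivity), smul_eq_mul]
  field_simp

end

end Pool.Agent.K4H6.SV
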