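import Pool.Agent.K4H6.SV.E

set_option autoImplicit false

/-! Folding: the variance is a weighted mean square over positive heights. -/

namespace Pool.Agent.K4H6.SV

open Complex MeasureTheory Filter Topology Set Pool.Agent.TH535.SM Pool.Agent.K4H66.OL Pool.Agent.K4H66.HL
open Pool.Agent.R446.KR
open scoped ComplexConjugate FourierTransform ContDiff ENNReal Convolution SchwartzMap

noncomputable section

lemma fold {F : ℝ → ℝ} (hF : Integrable F) : ∫ t, F t = ∫ t in Ioi (0:ℝ), (F t + F (-t)) := by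
  rw [integral_add hF.integrableOn hF.comp_neg.integrableOn, integral_comp_neg_Ioi, neg_zero, add_comm]
  exact (intervalIntegral.integral_Iic_add_Ioi hF.integrableOn hF.integrableOn).symm

/-- the folded weight -/
def fo (a : ℝ) (G : ℝ → ℝ) (u : ℝ) : ℝ := Real.smoothTransition (u / a) * (G u + G (-u))

lemma fo_cd {a : ℝ} {G : ℝ → ℝ} (hG : ContDiff ℝ 1 G) : ContDiff ℝ 1 (fo a G) := by
  unfold fo
  refine ContDiff.mul ?_ (hG.add (hG.comp contDiff_neg))
  exact (Real.smoothTransition.contDiff.of_le (by exact_mod_cast le_top)).comp (contDiff_id.div_const a)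

lemma fo_nonpos {a : ℝ} (ha : 0 < a) (G : ℝ → ℝ) {u : ℝ} (hu : u ≤ 0) : fo a G u = 0 := by
  unfold fo
  rw [Real.smoothTransition.zero_of_nonpos (div_nonpos_of_nonpos_of_nonneg hu ha.le), zero_mul]

lemma fo_pos {a b : ℝ} (ha : 0 < a) {G : ℝ → ℝ} (hs : ∀ u, (|u| < a ∨ b < |u|) → G u = 0) {u : ℝ} (hu : 0 < u) :
    fo a G u = G u + G (-u) := by
  unfold fo
  by_cases h : a ≤ u
  · rw [Real.smoothTransition.one_of_one_le ((one_le_div ha).2 h), one_mul]
  · push Not at h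
    rw [hs u (Or.inl (by rw [abs_of_pos hu]; exact h)), hs (-u) (Or.inl (by rw [abs_neg, abs_of_pos hu]; exact h))]
    simp

lemma fo_Wt {a b : ℝ} (ha : 0 < a) (hab : a < b) {G : ℝ → ℝ} (hG : ContDiff ℝ 1 G)
    (hs : ∀ u, (|u| < a ∨ b < |u|) → G u = 0) : Wt (fo a G) a b := by
  refine ⟨fo_cd hG, fun x hx => ?_, ha, hab⟩
  rcases le_or_gt x 0 with h0 | h0
  · exact fo_nonpos ha G h0
  · rw [fo_pos ha hs h0]
    have h1 : |x| < a ∨ b < |x| := by
      rw [abs_of_pos h0]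
      by_contra hc
      push Not at hc
      exact hx ⟨hc.1, hc.2⟩
    rw [hs x h1, hs (-x) (by rw [abs_neg]; exact h1), add_zero]

lemma fo_int {a b : ℝ} (ha : 0 < a) {G : ℝ → ℝ} (hG : Continuous G)
    (hs : ∀ u, (|u| < a ∨ b < |u|) → G u = 0) {E : ℝ → ℝ} (hE : Continuous E) (he : ∀ t, E (-t) = E t)
    {T : ℝ} (hT : 0 < T) : ∫ t, G (t / T) * E t = ∫ t, fo a G (t / T) * E t := by
  have hi : Integrable (fun t => G (t / T) * E t) := by
    refine Continuous.integrable_of_hasCompactSupport (by fun_prop) ?_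
    refine HasCompactSupport.intro (isCompact_Icc (a := -(b * T)) (b := b * T)) fun t ht => ?_
    have h1 : b < |t / T| := by
      rw [abs_div, abs_of_pos hT, lt_div_iff₀ hT]
      by_contra hc
      push Not at hc
      exact ht (abs_le.1 hc)
    rw [hs _ (Or.inr h1), zero_mul]
  rw [fold hi]
  have h2 : ∫ t in Ioi (0:ℝ), fo a G (t / T) * E t = ∫ t, fo a G (t / T) * E t := by
    refine setIntegral_eq_integral_of_forall_compl_eq_zero fun t ht => ?_
    rw [mem_Ioi, not_lt] at ht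
    rw [fo_nonpos ha G (div_nonpos_of_nonpos_of_nonneg ht hT.le), zero_mul]
  rw [← h2]
  refine setIntegral_congr_fun measurableSet_Ioi fun t ht => ?_
  rw [fo_pos ha hs (div_pos ht hT), he, neg_div]
  ring

/-- the weight of a kernel -/
def Gk (K : ℝ → ℂ) (u : ℝ) : ℝ := ‖𝓕 K (-(u / (2 * Real.pi)))‖ ^ 2

/-- kernels: the Fourier transform is supported away from zero and infinity -/
structure Ker (K : 𝓢(ℝ, ℂ)) (α β : ℝ) : Prop where
  α0 : 0 < α
  αβ : α < β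
  s : ∀ ξ : ℝ, (|ξ| < α ∨ β < |ξ|) → 𝓕 (K : ℝ → ℂ) ξ = 0

lemma Gk_cd (K : 𝓢(ℝ, ℂ)) : ContDiff ℝ 1 (Gk K) := by
  unfold Gk
  have h1 : ContDiff ℝ 1 (𝓕 (K : ℝ → ℂ)) := by
    rw [← SchwartzMap.fourier_coe]
    exact (𝓕 K).smooth 1
  exact (h1.comp ((contDiff_id.div_const _).neg)).norm_sq ℝ

lemma Gk_supp {K : 𝓢(ℝ, ℂ)} {α β : ℝ} (h : Ker K α β) (u : ℝ)
    (hu : |u| < 2 * Real.pi * α ∨ 2 * Real.pi * β < |u|) : Gk K u = 0 := by
  have hp : (0:ℝ) < 2 * Real.pi := by positivity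
  unfold Gk
  rw [h.s _ ?_, norm_zero]
  · norm_num
  · rw [abs_neg, abs_div, abs_of_pos hp, div_lt_iff₀ hp, lt_div_iff₀ hp]
    rcases hu with h1 | h1
    · left; linarith
    · right; linarith

/-- the folded weight of a kernel -/
def wk (K : ℝ → ℂ) (α : ℝ) : ℝ → ℝ := fo (2 * Real.pi * α) (Gk K)

lemma wk_Wt {K : 𝓢(ℝ, ℂ)} {α β : ℝ} (h : Ker K α β) : Wt (wk K α) (2 * Real.pi * α) (2 * Real.pi * β) := by
  have hp : (0:ℝ) < 2 * Real.pi := by positivity
  exact fo_Wt (mul_pos hp h.α0) (mul_lt_mul_of_pos_left h.αβ hp) (Gk_cd K) (Gk_supp h)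

lemma wk_nonneg (K : ℝ → ℂ) (α : ℝ) (u : ℝ) : 0 ≤ wk K α u := by
  unfold wk fo Gk
  have := Real.smoothTransition.nonneg (u / (2 * Real.pi * α))
  positivity

lemma wk_int {K : 𝓢(ℝ, ℂ)} {α β : ℝ} (h : Ker K α β) : ∫ u, wk K α u = 2 * Real.pi * ∫ x, ‖K x‖ ^ 2 := by
  have hp : (0:ℝ) < 2 * Real.pi := by positivity
  have h1 := fo_int (mul_pos hp h.α0) (Gk_cd K).continuous (Gk_supp h) (E := fun _ => 1) continuous_const
    (fun _ => rfl) (T := 1) one_pos
  simp only [div_one, mul_one] at h1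
  unfold wk
  rw [← h1, ← (planch (sch_dec K)).2]
  unfold Gk
  have h2 := Measure.integral_comp_mul_left (fun t : ℝ => ‖𝓕 (K : ℝ → ℂ) t‖ ^ 2) (-(2 * Real.pi)⁻¹)
  have e : ∀ u : ℝ, -(u / (2 * Real.pi)) = -(2 * Real.pi)⁻¹ * u := fun u => by ring
  simp_rw [e]
  rw [h2, inv_neg, inv_inv, abs_neg, abs_of_pos hp, smul_eq_mul]

/-- the variance as a weighted mean square -/
theorem Vv_Iw {φ : ℝ → ℝ} (h : TS (cx φ)) (k : ℕ) {K : 𝓢(ℝ, ℂ)} {α β : ℝ} (hK : Ker K α β) {T : ℝ} (hT : 1 < T) :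
    Vv k φ K T = 1 / (2 * Real.pi * T) * Iw (cx φ) k (wk K α) T := by
  have hp : (0:ℝ) < 2 * Real.pi := by positivity
  rw [Vv_eq h k (sch_dec K) hT]
  congr 1
  unfold Iw wk
  rw [← fo_int (mul_pos hp hK.α0) (Gk_cd K).continuous (Gk_supp hK) (E := fun t => ‖DP (cx φ) k T t‖ ^ 2)
    ((DP_cont h k hT).norm.pow 2) (fun t => by simp only [DP_even h k hT]) (T := T) (by linarith)]
  refine integral_congr_ae (Eventually.of_forall fun t => ?_)
  simp only
  unfold Gk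
  rw [div_div, mul_comm T (2 * Real.pi)]

end

end Pool.Agent.K4H6.SV
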