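import Pool.Agent.K4H6.SV.F

set_option autoImplicit false

/-! Kernels attached to bumps. -/

namespace Pool.Agent.K4H6.SV

open Complex MeasureTheory Filter Topology Set Pool.Agent.TH535.SM Pool.Agent.K4H66.OL Pool.Agent.K4H66.HL
open Pool.Agent.R446.KR
open scoped ComplexConjugate FourierTransform ContDiff ENNReal Convolution SchwartzMap

noncomputable section

lemma ft_conj {g : ℝ → ℝ} (he : ∀ x, g (-x) = g x) (w : ℝ) :
    conj (𝓕 (fun x => (g x : ℂ)) w) = 𝓕 (fun x => (g x : ℂ)) w := by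
  rw [ft_eq, ← integral_conj, ← integral_neg_eq_self]
  refine integral_congr_ae (Eventually.of_forall fun t => ?_)
  simp only [map_mul, Complex.conj_ofReal, he]
  rw [← Complex.exp_conj]
  congr 2
  simp only [map_mul, map_neg, Complex.conj_I, Complex.conj_ofReal, map_ofNat]
  push_cast
  ring

/-- the even function attached to a bump -/
def ev (η : ℝ → ℝ) (ξ : ℝ) : ℝ := η (2 * Real.pi * ξ) + η (-(2 * Real.pi * ξ))

lemma ev_even (η : ℝ → ℝ) (x : ℝ) : ev η (-x) = ev η x := by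
  unfold ev
  rw [mul_neg, neg_neg, add_comm]

lemma ev_cd {η : ℝ → ℝ} (h : ContDiff ℝ ∞ η) : ContDiff ℝ ∞ (fun ξ => (ev η ξ : ℂ)) := by
  have h1 : ContDiff ℝ ∞ (fun ξ : ℝ => η (2 * Real.pi * ξ) + η (-(2 * Real.pi * ξ))) :=
    (h.comp (contDiff_const.mul contDiff_id)).add (h.comp (contDiff_const.mul contDiff_id).neg)
  exact Complex.ofRealCLM.contDiff.comp h1

lemma ev_supp {η : ℝ → ℝ} {a b : ℝ} (ha : 0 < a) (hs : ∀ x, x ∉ Icc a b → η x = 0) (ξ : ℝ)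
    (hξ : |ξ| < a / (2 * Real.pi) ∨ b / (2 * Real.pi) < |ξ|) : ev η ξ = 0 := by
  have hp : (0:ℝ) < 2 * Real.pi := by positivity
  rw [lt_div_iff₀ hp, div_lt_iff₀ hp] at hξ
  have key : ∀ x : ℝ, |x| = |ξ| * (2 * Real.pi) → η x = 0 := by
    intro x hx
    refine hs x fun hc => ?_
    rw [abs_of_pos (ha.trans_le hc.1)] at hx
    rcases hξ with h | h
    · linarith [hc.1]
    · linarith [hc.2]
  unfold ev
  rw [key _ (by rw [abs_mul, abs_of_pos hp, mul_comm]), key _ (by rw [abs_neg, abs_mul, abs_of_pos hp, mul_comm]),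
    add_zero]

lemma ev_cs {η : ℝ → ℝ} {a b : ℝ} (ha : 0 < a) (hs : ∀ x, x ∉ Icc a b → η x = 0) :
    HasCompactSupport (fun ξ => (ev η ξ : ℂ)) := by
  refine HasCompactSupport.intro (isCompact_Icc (a := -(b / (2 * Real.pi))) (b := b / (2 * Real.pi))) fun x hx => ?_
  rw [ev_supp ha hs x (Or.inr ?_), ofReal_zero]
  by_contra hc
  push Not at hc
  exact hx (abs_le.1 hc)

/-- the kernel attached to a bump -/
theorem bump_kernel {η : ℝ → ℝ} (hη : ContDiff ℝ ∞ η) {a b : ℝ} (ha : 0 < a) (hab : a < b)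
    (hs : ∀ x, x ∉ Icc a b → η x = 0) : ∃ K : 𝓢(ℝ, ℂ), Ker K (a / (2 * Real.pi)) (b / (2 * Real.pi)) ∧
      (∀ x, (K x).im = 0) ∧ ∀ u, wk K (a / (2 * Real.pi)) u = 2 * η u ^ 2 := by
  have hp : (0:ℝ) < 2 * Real.pi := by positivity
  set g : 𝓢(ℝ, ℂ) := (ev_cs ha hs).toSchwartzMap (ev_cd hη) with hg
  have hgc : ∀ x, g x = (ev η x : ℂ) := fun x => rfl
  set K : 𝓢(ℝ, ℂ) := 𝓕⁻ g with hKd
  have hF : ∀ ξ, 𝓕 (K : ℝ → ℂ) ξ = (ev η ξ : ℂ) := by
    intro ξ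
    rw [← SchwartzMap.fourier_coe, hKd, FourierTransform.fourier_fourierInv_eq, hgc]
  have hK : Ker K (a / (2 * Real.pi)) (b / (2 * Real.pi)) := by
    refine ⟨by positivity, by gcongr, fun ξ hξ => ?_⟩
    rw [hF, ev_supp ha hs ξ hξ, ofReal_zero]
  refine ⟨K, hK, fun x => ?_, fun u => ?_⟩
  · have h1 : K x = 𝓕 (fun x => (ev η x : ℂ)) (-x) := by
      rw [hKd, SchwartzMap.fourierInv_coe, Real.fourierInv_eq_fourier_neg]
      rfl
    rw [h1]
    exact Complex.conj_eq_iff_im.1 (ft_conj (ev_even η) (-x))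
  · have h0 : ∀ x : ℝ, x ≤ 0 → η x = 0 := fun x hx => hs x fun hc => by linarith [hc.1]
    have hG : ∀ v, Gk K v = (η v + η (-v)) ^ 2 := by
      intro v
      unfold Gk
      rw [hF, Complex.norm_real, Real.norm_eq_abs, sq_abs]
      unfold ev
      have e : 2 * Real.pi * -(v / (2 * Real.pi)) = -v := by field_simp
      rw [e, neg_neg, add_comm]
    rcases le_or_gt u 0 with hu | hu
    · rw [h0 u hu]
      unfold wk
      rw [fo_nonpos (by positivity) _ hu]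
      norm_num
    · unfold wk
      rw [fo_pos (mul_pos hp hK.α0) (Gk_supp hK) hu, hG, hG, neg_neg, h0 (-u) (by linarith)]
      ring

lemma bump_int {η : ℝ → ℝ} {a : ℝ} {b : ℝ} {K : 𝓢(ℝ, ℂ)} (hK : Ker K (a / (2 * Real.pi)) (b / (2 * Real.pi)))
    (h : ∀ u, wk K (a / (2 * Real.pi)) u = 2 * η u ^ 2) : ∫ x, ‖K x‖ ^ 2 = 1 / Real.pi * ∫ u, η u ^ 2 := by
  have h1 := wk_int hK
  simp_rw [h] at h1
  rw [integral_const_mul] at h1
  have := Real.pi_pos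
  field_simp
  linarith

lemma bump_V {η : ℝ → ℝ} {a b : ℝ} {K : 𝓢(ℝ, ℂ)} (hK : Ker K (a / (2 * Real.pi)) (b / (2 * Real.pi)))
    (h : ∀ u, wk K (a / (2 * Real.pi)) u = 2 * η u ^ 2) {φ : ℝ → ℝ} (hφ : TS (cx φ)) (k : ℕ) {T : ℝ} (hT : 1 < T) :
    Real.pi * T * Vv k φ K T = Iw (cx φ) k (fun u => η u ^ 2) T := by
  rw [Vv_Iw hφ k hK hT]
  unfold Iw
  simp_rw [h, mul_assoc (2:ℝ)]
  rw [integral_const_mul]
  have := Real.pi_pos
  field_simp

lemma bump_zero (f : ContDiffBump (3 / 2 : ℝ)) (x : ℝ) (hx : x ∉ Icc (3 / 2 - f.rOut) (3 / 2 + f.rOut)) : f x = 0 := by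
  refine f.zero_of_le_dist ?_
  rw [Real.dist_eq]
  by_contra hc
  push Not at hc
  rw [abs_lt] at hc
  exact hx ⟨by linarith [hc.1], by linarith [hc.2]⟩

lemma bump_one (f : ContDiffBump (3 / 2 : ℝ)) (x : ℝ) (hx : x ∈ Icc (3 / 2 - f.rIn) (3 / 2 + f.rIn)) : f x = 1 := by
  refine f.one_of_mem_closedBall ?_
  rw [Real.closedBall_eq_Icc]
  exact hx

lemma bump_sq (f : ContDiffBump (3 / 2 : ℝ)) : 2 * f.rIn ≤ ∫ x, f x ^ 2 ∧ ∫ x, f x ^ 2 ≤ 2 * f.rOut := by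
  have hc : Continuous (fun x => f x ^ 2) := f.continuous.pow 2
  have e1 : ∫ x in Icc (3 / 2 - f.rIn) (3 / 2 + f.rIn), (1:ℝ) = 2 * f.rIn := by
    rw [setIntegral_const, smul_eq_mul, mul_one, measureReal_def, Real.volume_Icc, ENNReal.toReal_ofReal (by
      linarith [f.rIn_pos])]
    ring
  have e2 : ∫ x in Icc (3 / 2 - f.rOut) (3 / 2 + f.rOut), (1:ℝ) = 2 * f.rOut := by
    rw [setIntegral_const, smul_eq_mul, mul_one, measureReal_def, Real.volume_Icc, ENNReal.toReal_ofReal (by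
      linarith [f.rOut_pos])]
    ring
  have e3 : ∫ x, f x ^ 2 = ∫ x in Icc (3 / 2 - f.rOut) (3 / 2 + f.rOut), f x ^ 2 := by
    refine (setIntegral_eq_integral_of_forall_compl_eq_zero fun x hx => ?_).symm
    rw [bump_zero f x hx]
    norm_num
  constructor
  · rw [← e1, e3]
    calc ∫ x in Icc (3 / 2 - f.rIn) (3 / 2 + f.rIn), (1:ℝ)
        = ∫ x in Icc (3 / 2 - f.rIn) (3 / 2 + f.rIn), f x ^ 2 := by
          refine setIntegral_congr_fun measurableSet_Icc fun x hx => ?_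
          rw [bump_one f x hx, one_pow]
      _ ≤ ∫ x in Icc (3 / 2 - f.rOut) (3 / 2 + f.rOut), f x ^ 2 := by
          refine setIntegral_mono_set hc.continuousOn.integrableOn_Icc
            (Eventually.of_forall fun x => sq_nonneg _) ?_
          have := f.rIn_lt_rOut
          exact (Icc_subset_Icc (by linarith) (by linarith)).eventuallyLE
  · rw [← e2, e3]
    refine setIntegral_mono_on hc.continuousOn.integrableOn_Icc continuousOn_const.integrableOn_Icc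
      measurableSet_Icc fun x _ => ?_
    exact pow_le_one₀ f.nonneg f.le_one

/-- a kernel whose variance is at most the dyadic mean square -/
theorem inner_kernel {δ : ℝ} (hδ : 0 < δ) (hδ1 : δ < 1 / 2) : ∃ (K : 𝓢(ℝ, ℂ)) (α β : ℝ), Ker K α β ∧
    (∀ x, (K x).im = 0) ∧ (1 - 2 * δ) / Real.pi ≤ ∫ x, ‖K x‖ ^ 2 ∧ ∫ x, ‖K x‖ ^ 2 ≤ 1 / Real.pi ∧
    ∀ (φ : ℝ → ℝ), TS (cx φ) → ∀ (k : ℕ) (T : ℝ), 1 < T → Real.pi * T * Vv k φ K T ≤ mD (cx φ) k T := by
  let f : ContDiffBump (3 / 2 : ℝ) := ⟨1 / 2 - δ, 1 / 2, by linarith, by linarith⟩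
  have hz : ∀ x, x ∉ Icc (1:ℝ) 2 → f x = 0 := by
    intro x hx
    refine bump_zero f x ?_
    show x ∉ Icc (3 / 2 - 1 / 2 : ℝ) (3 / 2 + 1 / 2)
    norm_num at hx ⊢
    exact hx
  obtain ⟨K, h1, h2, h3⟩ := bump_kernel (η := f) f.contDiff one_pos (by norm_num : (1:ℝ) < 2) hz
  obtain ⟨s1, s2⟩ := bump_sq f
  have e := bump_int h1 h3
  have hp := Real.pi_pos
  have r1 : f.rIn = 1 / 2 - δ := rfl
  have r2 : f.rOut = 1 / 2 := rfl
  rw [r1] at s1
  rw [r2] at s2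
  refine ⟨K, _, _, h1, h2, ?_, ?_, fun φ hφ k T hT => ?_⟩
  · rw [e, div_eq_mul_inv, one_div, mul_comm]
    gcongr
    linarith
  · rw [e]
    calc 1 / Real.pi * ∫ u, f u ^ 2 ≤ 1 / Real.pi * 1 := by gcongr; linarith
      _ = 1 / Real.pi := mul_one _
  · rw [bump_V h1 h3 hφ k hT]
    refine Iw_le_mD hφ k (α := 1) (β := 2) ⟨f.contDiff.pow 2, fun x hx => ?_, one_pos, by norm_num⟩ le_rfl le_rfl
      (fun x => sq_nonneg _) (fun x => pow_le_one₀ f.nonneg f.le_one) hT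
    rw [hz x hx]
    norm_num

/-- a kernel whose variance is at least the dyadic mean square -/
theorem outer_kernel {δ : ℝ} (hδ : 0 < δ) (hδ1 : δ < 1 / 2) : ∃ (K : 𝓢(ℝ, ℂ)) (α β : ℝ), Ker K α β ∧
    (∀ x, (K x).im = 0) ∧ 1 / Real.pi ≤ ∫ x, ‖K x‖ ^ 2 ∧ ∫ x, ‖K x‖ ^ 2 ≤ (1 + 2 * δ) / Real.pi ∧
    ∀ (φ : ℝ → ℝ), TS (cx φ) → ∀ (k : ℕ) (T : ℝ), 1 < T → mD (cx φ) k T ≤ Real.pi * T * Vv k φ K T := by
  let f : ContDiffBump (3 / 2 : ℝ) := ⟨1 / 2, 1 / 2 + δ, by norm_num, by linarith⟩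
  have hz : ∀ x, x ∉ Icc (1 - δ) (2 + δ) → f x = 0 := by
    intro x hx
    refine bump_zero f x ?_
    show x ∉ Icc (3 / 2 - (1 / 2 + δ) : ℝ) (3 / 2 + (1 / 2 + δ))
    intro hc
    exact hx ⟨by linarith [hc.1], by linarith [hc.2]⟩
  obtain ⟨K, h1, h2, h3⟩ := bump_kernel (η := f) f.contDiff (by linarith : 0 < 1 - δ)
    (by linarith : 1 - δ < 2 + δ) hz
  obtain ⟨s1, s2⟩ := bump_sq f
  have e := bump_int h1 h3
  have hp := Real.pi_pos
  have r1 : f.rIn = 1 / 2 := rfl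
  have r2 : f.rOut = 1 / 2 + δ := rfl
  rw [r1] at s1
  rw [r2] at s2
  refine ⟨K, _, _, h1, h2, ?_, ?_, fun φ hφ k T hT => ?_⟩
  · rw [e]
    calc 1 / Real.pi = 1 / Real.pi * 1 := (mul_one _).symm
      _ ≤ 1 / Real.pi * ∫ u, f u ^ 2 := by gcongr; linarith
  · rw [e, div_eq_mul_inv (1 + 2 * δ), one_div, mul_comm (1 + 2 * δ)]
    gcongr
    linarith
  · rw [bump_V h1 h3 hφ k hT]
    refine mD_le_Iw hφ k (α := 1 - δ) (β := 2 + δ) ⟨f.contDiff.pow 2, fun x hx => ?_, by linarith, by linarith⟩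
      (by linarith) (by linarith) (fun x => sq_nonneg _) (fun x hx => ?_) hT
    · rw [hz x hx]
      norm_num
    · have := bump_one f x (by
        rw [r1]
        exact ⟨by linarith [hx.1], by linarith [hx.2]⟩)
      simp only [this]
      norm_num

end

end Pool.Agent.K4H6.SV
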