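import Pool.Agent.K4H6.SV.G

set_option autoImplicit false

/-! The variance and the moment. -/

namespace Pool.Agent.K4H6.SV

open Complex MeasureTheory Filter Topology Set Pool.Agent.TH535.SM Pool.Agent.K4H66.OL Pool.Agent.K4H66.HL
open Pool.Agent.R446.KR
open scoped ComplexConjugate FourierTransform ContDiff ENNReal Convolution SchwartzMap

noncomputable section

variable {φ : ℝ → ℝ} {k : ℕ}

/-- the moment gives the variance -/
theorem var_lim (hk : 2 ≤ k) (h : TS (cx φ))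
    (hφ : ∀ x ∈ Icc (1:ℝ) (k - 1), ‖cx φ x‖ ^ 2 + ‖cx φ (k - x)‖ ^ 2 = 1) {c : ℝ}
    (hM : Tendsto (fun T => M (zr k 0) T / NN (k ^ 2) T) atTop (𝓝 c)) {K : 𝓢(ℝ, ℂ)} {α β : ℝ} (hK : Ker K α β) :
    Tendsto (fun T => Vv k φ K T / Real.log T ^ (k ^ 2)) atTop
      (𝓝 ((c / 2 + Jc (cx φ) k) * ∫ x, ‖K x‖ ^ 2)) := by
  have hp := Real.pi_pos
  have h1 := weighted h (fun a b ha hab => windows hk h hφ hM ha hab) (wk_Wt hK)
  rw [wk_int hK] at h1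
  have h2 := h1.const_mul (1 / (2 * Real.pi))
  have e : 1 / (2 * Real.pi) * ((c / 2 + Jc (cx φ) k) * (2 * Real.pi * ∫ x, ‖K x‖ ^ 2)) =
      (c / 2 + Jc (cx φ) k) * ∫ x, ‖K x‖ ^ 2 := by field_simp
  rw [e] at h2
  refine h2.congr' ?_
  filter_upwards [eventually_gt_atTop 1] with T hT
  rw [Vv_Iw h k hK hT]
  unfold NN
  have := Real.log_pos hT
  field_simp

lemma mD_up (h : TS (cx φ)) {c : ℝ}
    (hV : ∀ (K : 𝓢(ℝ, ℂ)) (α β : ℝ), Ker K α β → (∀ x, (K x).im = 0) → ∀ ε : ℝ, 0 < ε → ∀ᶠ T : ℝ in atTop,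
      Vv k φ K T ≤ (c * (∫ x, ‖K x‖ ^ 2) + ε) * Real.log T ^ (k ^ 2)) :
    ∀ ε : ℝ, 0 < ε → ∀ᶠ T : ℝ in atTop, mD (cx φ) k T ≤ (c + ε) * NN (k ^ 2) T := by
  intro ε hε
  have hp := Real.pi_pos
  obtain ⟨δ, hδ, hδ1, hδ2⟩ : ∃ δ : ℝ, 0 < δ ∧ δ < 1 / 2 ∧ |c| * (2 * δ) ≤ ε / 2 := by
    refine ⟨min (1 / 4) (ε / (4 * (|c| + 1))), by positivity, lt_of_le_of_lt (min_le_left _ _) (by norm_num), ?_⟩
    have h1 : min (1 / 4) (ε / (4 * (|c| + 1))) ≤ ε / (4 * (|c| + 1)) := min_le_right _ _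
    have h2 := abs_nonneg c
    calc |c| * (2 * min (1 / 4) (ε / (4 * (|c| + 1)))) ≤ |c| * (2 * (ε / (4 * (|c| + 1)))) := by gcongr
      _ = (|c| / (|c| + 1)) * (ε / 2) := by field_simp; ring
      _ ≤ 1 * (ε / 2) := by
          gcongr
          rw [div_le_one (by positivity)]
          linarith
      _ = ε / 2 := one_mul _
  obtain ⟨K, α, β, k1, k2, k3, k4, k5⟩ := outer_kernel hδ hδ1
  filter_upwards [hV K α β k1 k2 (ε / (2 * Real.pi)) (by positivity), eventually_gt_atTop 1] with T h1 h2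
  have hL : 0 < Real.log T ^ (k ^ 2) := pow_pos (Real.log_pos h2) _
  have hT0 : 0 < T := by linarith
  refine (k5 φ h k T h2).trans ?_
  have h3 : Real.pi * (c * (∫ x, ‖K x‖ ^ 2) + ε / (2 * Real.pi)) ≤ c + ε := by
    have e1 : Real.pi * (c * (∫ x, ‖K x‖ ^ 2) + ε / (2 * Real.pi)) = c * (Real.pi * ∫ x, ‖K x‖ ^ 2) + ε / 2 := by
      field_simp
    rw [e1]
    rw [div_le_iff₀ hp] at k3
    rw [le_div_iff₀ hp] at k4
    rcases le_or_gt 0 c with hc | hc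
    · rw [abs_of_nonneg hc] at hδ2
      nlinarith
    · nlinarith
  calc Real.pi * T * Vv k φ K T ≤ Real.pi * T * ((c * (∫ x, ‖K x‖ ^ 2) + ε / (2 * Real.pi)) *
      Real.log T ^ (k ^ 2)) := by gcongr
    _ = (Real.pi * (c * (∫ x, ‖K x‖ ^ 2) + ε / (2 * Real.pi))) * NN (k ^ 2) T := by unfold NN; ring
    _ ≤ (c + ε) * NN (k ^ 2) T := mul_le_mul_of_nonneg_right h3 (NN_pos _ h2).le

lemma mD_low (h : TS (cx φ)) {c : ℝ}
    (hV : ∀ (K : 𝓢(ℝ, ℂ)) (α β : ℝ), Ker K α β → (∀ x, (K x).im = 0) → ∀ ε : ℝ, 0 < ε → ∀ᶠ T : ℝ in atTop,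
      (c * (∫ x, ‖K x‖ ^ 2) - ε) * Real.log T ^ (k ^ 2) ≤ Vv k φ K T) :
    ∀ ε : ℝ, 0 < ε → ∀ᶠ T : ℝ in atTop, (c - ε) * NN (k ^ 2) T ≤ mD (cx φ) k T := by
  intro ε hε
  have hp := Real.pi_pos
  obtain ⟨δ, hδ, hδ1, hδ2⟩ : ∃ δ : ℝ, 0 < δ ∧ δ < 1 / 2 ∧ |c| * (2 * δ) ≤ ε / 2 := by
    refine ⟨min (1 / 4) (ε / (4 * (|c| + 1))), by positivity, lt_of_le_of_lt (min_le_left _ _) (by norm_num), ?_⟩
    have h1 : min (1 / 4) (ε / (4 * (|c| + 1))) ≤ ε / (4 * (|c| + 1)) := min_le_right _ _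
    have h2 := abs_nonneg c
    calc |c| * (2 * min (1 / 4) (ε / (4 * (|c| + 1)))) ≤ |c| * (2 * (ε / (4 * (|c| + 1)))) := by gcongr
      _ = (|c| / (|c| + 1)) * (ε / 2) := by field_simp; ring
      _ ≤ 1 * (ε / 2) := by
          gcongr
          rw [div_le_one (by positivity)]
          linarith
      _ = ε / 2 := one_mul _
  obtain ⟨K, α, β, k1, k2, k3, k4, k5⟩ := inner_kernel hδ hδ1
  filter_upwards [hV K α β k1 k2 (ε / (2 * Real.pi)) (by positivity), eventually_gt_atTop 1] with T h1 h2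
  have hL : 0 < Real.log T ^ (k ^ 2) := pow_pos (Real.log_pos h2) _
  have hT0 : 0 < T := by linarith
  refine le_trans ?_ (k5 φ h k T h2)
  have h3 : c - ε ≤ Real.pi * (c * (∫ x, ‖K x‖ ^ 2) - ε / (2 * Real.pi)) := by
    have e1 : Real.pi * (c * (∫ x, ‖K x‖ ^ 2) - ε / (2 * Real.pi)) = c * (Real.pi * ∫ x, ‖K x‖ ^ 2) - ε / 2 := by
      field_simp
    rw [e1]
    rw [div_le_iff₀ hp] at k3
    rw [le_div_iff₀ hp] at k4
    rcases le_or_gt 0 c with hc | hc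
    · rw [abs_of_nonneg hc] at hδ2
      nlinarith
    · nlinarith
  calc (c - ε) * NN (k ^ 2) T ≤ (Real.pi * (c * (∫ x, ‖K x‖ ^ 2) - ε / (2 * Real.pi))) * NN (k ^ 2) T :=
        mul_le_mul_of_nonneg_right h3 (NN_pos _ h2).le
    _ = Real.pi * T * ((c * (∫ x, ‖K x‖ ^ 2) - ε / (2 * Real.pi)) * Real.log T ^ (k ^ 2)) := by unfold NN; ring
    _ ≤ Real.pi * T * Vv k φ K T := by gcongr

/-- **asymptotics** -/
theorem var_iff (hk : 2 ≤ k) (h : TS (cx φ))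
    (hφ : ∀ x ∈ Icc (1:ℝ) (k - 1), ‖cx φ x‖ ^ 2 + ‖cx φ (k - x)‖ ^ 2 = 1) (c : ℝ)
    (hV : ∀ (K : 𝓢(ℝ, ℂ)) (α β : ℝ), Ker K α β → (∀ x, (K x).im = 0) →
      Tendsto (fun T => Vv k φ K T / Real.log T ^ (k ^ 2)) atTop
        (𝓝 ((c / 2 + Jc (cx φ) k) * ∫ x, ‖K x‖ ^ 2))) :
    Tendsto (fun T => M (zr k 0) T / NN (k ^ 2) T) atTop (𝓝 c) := by
  rw [half_iff hk h hφ, lim_iff]
  constructor
  · refine mD_up h fun K α β h1 h2 ε hε => ?_
    filter_upwards [(hV K α β h1 h2).eventually_lt_const (lt_add_of_pos_right _ hε), eventually_gt_atTop 1]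
      with T h3 h4
    rw [div_lt_iff₀ (pow_pos (Real.log_pos h4) _)] at h3
    exact h3.le
  · refine mD_low h fun K α β h1 h2 ε hε => ?_
    filter_upwards [(hV K α β h1 h2).eventually_const_lt (sub_lt_self _ hε), eventually_gt_atTop 1]
      with T h3 h4
    rw [lt_div_iff₀ (pow_pos (Real.log_pos h4) _)] at h3
    exact h3.le

/-- **upper bounds** -/
theorem var_up (hk : 2 ≤ k) (h : TS (cx φ))
    (hφ : ∀ x ∈ Icc (1:ℝ) (k - 1), ‖cx φ x‖ ^ 2 + ‖cx φ (k - x)‖ ^ 2 = 1) {c : ℝ}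
    (hV : ∀ (K : 𝓢(ℝ, ℂ)) (α β : ℝ), Ker K α β → (∀ x, (K x).im = 0) → ∀ ε : ℝ, 0 < ε → ∀ᶠ T : ℝ in atTop,
      Vv k φ K T ≤ ((c / 2 + Jc (cx φ) k) * (∫ x, ‖K x‖ ^ 2) + ε) * Real.log T ^ (k ^ 2)) :
    ∀ ε : ℝ, 0 < ε → ∀ᶠ T : ℝ in atTop, M (zr k 0) T ≤ (c + ε) * NN (k ^ 2) T :=
  half_up hk h hφ (mD_up h hV)

/-- **lower bounds** -/
theorem var_low (hk : 2 ≤ k) (h : TS (cx φ))
    (hφ : ∀ x ∈ Icc (1:ℝ) (k - 1), ‖cx φ x‖ ^ 2 + ‖cx φ (k - x)‖ ^ 2 = 1) {c : ℝ}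
    (hV : ∀ (K : 𝓢(ℝ, ℂ)) (α β : ℝ), Ker K α β → (∀ x, (K x).im = 0) → ∀ ε : ℝ, 0 < ε → ∀ᶠ T : ℝ in atTop,
      ((c / 2 + Jc (cx φ) k) * (∫ x, ‖K x‖ ^ 2) - ε) * Real.log T ^ (k ^ 2) ≤ Vv k φ K T) :
    ∀ ε : ℝ, 0 < ε → ∀ᶠ T : ℝ in atTop, (c - ε) * NN (k ^ 2) T ≤ M (zr k 0) T :=
  half_low hk h hφ (mD_low h hV)

/-- the weighted mean square is bounded by the moment -/
lemma Iw_mass {φ : ℝ → ℂ} (h : TS φ) (k : ℕ) {w : ℝ → ℝ} {a b : ℝ} (hw : Wt w a b) :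
    ∃ C T0 : ℝ, 0 ≤ C ∧ Real.exp 1 ≤ T0 ∧ ∀ T : ℝ, T0 ≤ T → Iw φ k w T ≤ C * (M (zr k 0) ((a + b) * T) + 1) := by
  obtain ⟨W, hW⟩ := isCompact_Icc.exists_bound_of_continuousOn (s := Icc a b) hw.d.continuous.continuousOn
  have hW0 : 0 ≤ W := (norm_nonneg _).trans (hW a ⟨le_rfl, hw.αβ.le⟩)
  obtain ⟨C, T0, hC, hT0, h1⟩ := DP_mass h k hw.α0 hw.αβ.le
  refine ⟨W * C, T0, by positivity, hT0, fun T hT => ?_⟩
  have hT1 : 1 < T := by
    have := Real.add_one_lt_exp (one_ne_zero (α := ℝ))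
    linarith
  have hT00 : 0 < T := by linarith
  have hF : Continuous (fun t => ‖DP φ k T t‖ ^ 2) := (DP_cont h k hT1).norm.pow 2
  have hle : a * T ≤ b * T := by have := hw.αβ.le; gcongr
  have hM : 0 ≤ M (zr k 0) ((a + b) * T) := by
    have h1 := hw.α0
    have h2 := hw.αβ
    exact M_nonneg _ (mul_nonneg (by linarith) hT00.le)
  have h2 : ∫ t in (a * T)..(b * T), ‖DP φ k T t‖ ^ 2 ≤ C * (M (zr k 0) ((a + b) * T) + 1) := by
    have h3 := h1 T hT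
    simp_rw [ensq] at h3
    rw [← ofReal_integral_eq_lintegral_ofReal hF.continuousOn.integrableOn_Icc
      (Eventually.of_forall fun t => by positivity)] at h3
    rw [intervalIntegral.integral_of_le hle, ← integral_Icc_eq_integral_Ioc]
    exact (ENNReal.ofReal_le_ofReal_iff (by positivity)).1 h3
  rw [Iw_eq hw k hT1]
  calc ∫ t in (a * T)..(b * T), w (t / T) * ‖DP φ k T t‖ ^ 2
      ≤ ∫ t in (a * T)..(b * T), W * ‖DP φ k T t‖ ^ 2 := by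
        have hwc := hw.d.continuous
        refine intervalIntegral.integral_mono_on hle ((by fun_prop : Continuous fun t =>
          w (t / T) * ‖DP φ k T t‖ ^ 2).intervalIntegrable _ _) ((hF.const_smul W).intervalIntegrable _ _)
          fun t ht => ?_
        have h4 : t / T ∈ Icc a b := ⟨by rw [le_div_iff₀ hT00]; exact ht.1, by rw [div_le_iff₀ hT00]; exact ht.2⟩
        have h5 := (le_abs_self _).trans (hW _ h4)
        gcongr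
    _ = W * ∫ t in (a * T)..(b * T), ‖DP φ k T t‖ ^ 2 := intervalIntegral.integral_const_mul _ _
    _ ≤ W * (C * (M (zr k 0) ((a + b) * T) + 1)) := by gcongr
    _ = W * C * (M (zr k 0) ((a + b) * T) + 1) := by ring

/-- the order of magnitude, from the moment to the variance -/
theorem var_order1 (h : TS (cx φ)) (hM : ∃ B : ℝ, ∀ᶠ T : ℝ in atTop, M (zr k 0) T ≤ B * NN (k ^ 2) T)
    {K : 𝓢(ℝ, ℂ)} {α β : ℝ} (hK : Ker K α β) : ∃ B : ℝ, ∀ᶠ T : ℝ in atTop, Vv k φ K T ≤ B * Real.log T ^ (k ^ 2) := by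
  obtain ⟨B, hB⟩ := hM
  have hp := Real.pi_pos
  obtain ⟨C, T0, hC, hT0, h1⟩ := Iw_mass h k (wk_Wt hK)
  set s : ℝ := 2 * Real.pi * α + 2 * Real.pi * β with hs
  have hs0 : 0 < s := by
    have h1 := hK.α0
    have h2 := hK.α0.trans hK.αβ
    positivity
  obtain ⟨r1, r2⟩ := NN_ratio (k ^ 2) (s := fun T => s * T) hs0 (two_ratio s)
  have r3 := r1.eventually_lt_const (show s < s + 1 by linarith)
  refine ⟨1 / (2 * Real.pi) * (C * (|B| * (s + 1) + 1)), ?_⟩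
  filter_upwards [r3, r2.eventually hB, eventually_ge_atTop T0, eventually_gt_atTop 1,
    (NN_inf (k ^ 2)).eventually_ge_atTop 1, r2.eventually_gt_atTop 1] with T a1 a2 a3 a4 a5 a6
  have hN := NN_pos (k ^ 2) a4
  have hT : 0 < T := by linarith
  rw [div_lt_iff₀ hN] at a1
  rw [Vv_Iw h k hK a4]
  have h2 := h1 T a3
  have h3 : M (zr k 0) (s * T) ≤ |B| * (s + 1) * NN (k ^ 2) T := by
    refine a2.trans ?_
    have b1 : B * NN (k ^ 2) (s * T) ≤ |B| * NN (k ^ 2) (s * T) :=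
      mul_le_mul_of_nonneg_right (le_abs_self B) (NN_pos _ a6).le
    have b2 : |B| * NN (k ^ 2) (s * T) ≤ |B| * ((s + 1) * NN (k ^ 2) T) := by gcongr
    linarith
  calc 1 / (2 * Real.pi * T) * Iw (cx φ) k (wk K α) T
      ≤ 1 / (2 * Real.pi * T) * (C * (|B| * (s + 1) * NN (k ^ 2) T + NN (k ^ 2) T)) := by
        refine mul_le_mul_of_nonneg_left (h2.trans ?_) (by positivity)
        gcongr
    _ = 1 / (2 * Real.pi) * (C * (|B| * (s + 1) + 1)) * Real.log T ^ (k ^ 2) := by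
        unfold NN
        field_simp

/-- powers, from the moment to the variance -/
theorem var_pow1 (h : TS (cx φ)) {θ : ℝ} (hθ : 1 < θ) (hM : ∃ B : ℝ, ∀ᶠ T : ℝ in atTop, M (zr k 0) T ≤ B * T ^ θ)
    {K : 𝓢(ℝ, ℂ)} {α β : ℝ} (hK : Ker K α β) : ∃ B : ℝ, ∀ᶠ T : ℝ in atTop, Vv k φ K T ≤ B * T ^ (θ - 1) := by
  obtain ⟨B, hB⟩ := hM
  have hp := Real.pi_pos
  obtain ⟨C, T0, hC, hT0, h1⟩ := Iw_mass h k (wk_Wt hK)
  set s : ℝ := 2 * Real.pi * α + 2 * Real.pi * β with hs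
  have hs0 : 0 < s := by
    have h1 := hK.α0
    have h2 := hK.α0.trans hK.αβ
    positivity
  have r2 : Tendsto (fun T : ℝ => s * T) atTop atTop := tendsto_id.const_mul_atTop hs0
  refine ⟨1 / (2 * Real.pi) * (C * (|B| * s ^ θ + 1)), ?_⟩
  filter_upwards [r2.eventually hB, eventually_ge_atTop T0, eventually_gt_atTop 1] with T a2 a3 a4
  have hT : 0 < T := by linarith
  rw [Vv_Iw h k hK a4]
  have h2 := h1 T a3
  have h3 : M (zr k 0) (s * T) ≤ |B| * s ^ θ * T ^ θ := by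
    refine a2.trans ?_
    rw [Real.mul_rpow hs0.le hT.le, ← mul_assoc]
    have := Real.rpow_nonneg hs0.le θ
    have := Real.rpow_nonneg hT.le θ
    have := le_abs_self B
    gcongr
  have h4 : (1:ℝ) ≤ T ^ θ := Real.one_le_rpow a4.le (by linarith)
  have h5 : T ^ θ = T * T ^ (θ - 1) := by
    rw [← Real.rpow_one_add' hT.le (by linarith)]
    congr 1
    ring
  calc 1 / (2 * Real.pi * T) * Iw (cx φ) k (wk K α) T
      ≤ 1 / (2 * Real.pi * T) * (C * (|B| * s ^ θ * T ^ θ + T ^ θ)) := by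
        refine mul_le_mul_of_nonneg_left (h2.trans ?_) (by positivity)
        gcongr
    _ = 1 / (2 * Real.pi) * (C * (|B| * s ^ θ + 1)) * T ^ (θ - 1) := by
        rw [h5]
        field_simp

/-- the order of magnitude, from the variance to the moment -/
theorem var_order2 (hk : 2 ≤ k) (h : TS (cx φ))
    (hφ : ∀ x ∈ Icc (1:ℝ) (k - 1), ‖cx φ x‖ ^ 2 + ‖cx φ (k - x)‖ ^ 2 = 1)
    (hV : ∀ (K : 𝓢(ℝ, ℂ)) (α β : ℝ), Ker K α β → (∀ x, (K x).im = 0) →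
      ∃ B : ℝ, ∀ᶠ T : ℝ in atTop, Vv k φ K T ≤ B * Real.log T ^ (k ^ 2)) :
    ∃ B : ℝ, ∀ᶠ T : ℝ in atTop, M (zr k 0) T ≤ B * NN (k ^ 2) T := by
  rw [half_order hk h hφ]
  obtain ⟨K, α, β, k1, k2, -, -, k5⟩ := outer_kernel (δ := 1 / 4) (by norm_num) (by norm_num)
  obtain ⟨B, hB⟩ := hV K α β k1 k2
  have hp := Real.pi_pos
  refine ⟨Real.pi * B, ?_⟩
  filter_upwards [hB, eventually_gt_atTop 1] with T h1 h2
  have hT : 0 < T := by linarith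
  calc mD (cx φ) k T ≤ Real.pi * T * Vv k φ K T := k5 φ h k T h2
    _ ≤ Real.pi * T * (B * Real.log T ^ (k ^ 2)) := by gcongr
    _ = Real.pi * B * NN (k ^ 2) T := by unfold NN; ring

/-- powers, from the variance to the moment -/
theorem var_pow2 (hk : 2 ≤ k) (h : TS (cx φ))
    (hφ : ∀ x ∈ Icc (1:ℝ) (k - 1), ‖cx φ x‖ ^ 2 + ‖cx φ (k - x)‖ ^ 2 = 1) {θ : ℝ} (hθ : 1 < θ)
    (hV : ∀ (K : 𝓢(ℝ, ℂ)) (α β : ℝ), Ker K α β → (∀ x, (K x).im = 0) →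
      ∃ B : ℝ, ∀ᶠ T : ℝ in atTop, Vv k φ K T ≤ B * T ^ (θ - 1)) :
    ∃ B : ℝ, ∀ᶠ T : ℝ in atTop, M (zr k 0) T ≤ B * T ^ θ := by
  rw [half_pow hk h hφ hθ]
  obtain ⟨K, α, β, k1, k2, -, -, k5⟩ := outer_kernel (δ := 1 / 4) (by norm_num) (by norm_num)
  obtain ⟨B, hB⟩ := hV K α β k1 k2
  have hp := Real.pi_pos
  refine ⟨Real.pi * B, ?_⟩
  filter_upwards [hB, eventually_gt_atTop 1] with T h1 h2
  have hT : 0 < T := by linarith
  have h5 : T ^ θ = T * T ^ (θ - 1) := by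
    rw [← Real.rpow_one_add' hT.le (by linarith)]
    congr 1
    ring
  calc mD (cx φ) k T ≤ Real.pi * T * Vv k φ K T := k5 φ h k T h2
    _ ≤ Real.pi * T * (B * T ^ (θ - 1)) := by gcongr
    _ = Real.pi * B * T ^ θ := by rw [h5]; ring

end

end Pool.Agent.K4H6.SV
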