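import Pool.Agent.K4H6.SV.H

set_option autoImplicit false

/-! The variance in the variable `x = exp v`. -/

namespace Pool.Agent.K4H6.SV

open Complex MeasureTheory Filter Topology Set Pool.Agent.TH535.SM Pool.Agent.K4H66.OL Pool.Agent.K4H66.HL
open Pool.Agent.R446.KR
open scoped ComplexConjugate FourierTransform ContDiff ENNReal Convolution SchwartzMap

noncomputable section

lemma exp_img : Real.exp '' univ = Ioi (0:ℝ) := by
  rw [image_univ, Real.range_exp]

lemma exp_cv (g : ℝ → ℝ) : ∫ x in Ioi (0:ℝ), g x / x = ∫ v, g (Real.exp v) := by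
  have h := integral_image_eq_integral_abs_deriv_smul (s := univ) (f := Real.exp) (f' := Real.exp) MeasurableSet.univ
    (fun x _ => (Real.hasDerivAt_exp x).hasDerivWithinAt) Real.exp_injective.injOn (fun x => g x / x)
  rw [exp_img] at h
  rw [h, setIntegral_univ]
  refine integral_congr_ae (Eventually.of_forall fun v => ?_)
  have := Real.exp_pos v
  simp only [smul_eq_mul]
  rw [abs_of_pos this]
  field_simp

lemma exp_int (g : ℝ → ℝ) (hg : Integrable (fun v => g (Real.exp v))) :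
    IntegrableOn (fun x => g x / x) (Ioi (0:ℝ)) := by
  have h := integrableOn_image_iff_integrableOn_abs_deriv_smul (s := univ) (f := Real.exp) (f' := Real.exp)
    MeasurableSet.univ (fun x _ => (Real.hasDerivAt_exp x).hasDerivWithinAt) Real.exp_injective.injOn
    (fun x => g x / x)
  rw [exp_img] at h
  rw [h, integrableOn_univ]
  refine hg.congr (Eventually.of_forall fun v => ?_)
  have := Real.exp_pos v
  simp only [smul_eq_mul]
  rw [abs_of_pos this]
  field_simp

/-- the sum over a short interval around `x` -/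
def Ax (k : ℕ) (φ : ℝ → ℝ) (K : ℝ → ℂ) (T x : ℝ) : ℂ :=
  ∑' n : ℕ, (((W182.KO.dk k n : ℝ) * φ (Real.log n / Real.log T) / √n : ℝ) : ℂ) * K (T * Real.log (n / x))

lemma Ax_exp (k : ℕ) (φ : ℝ → ℝ) (K : ℝ → ℂ) (T v : ℝ) : Ax k φ K T (Real.exp v) = Sv k φ K T v := by
  unfold Ax Sv cf
  refine tsum_congr fun n => ?_
  rcases Nat.eq_zero_or_pos n with h0 | h0
  · subst h0; simp
  · have hn : (n:ℝ) ≠ 0 := by exact_mod_cast h0.ne'
    rw [Real.log_div hn (Real.exp_pos v).ne', Real.log_exp]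

/-- the variance in the variable `x` -/
theorem Vv_x (k : ℕ) (φ : ℝ → ℝ) (K : ℝ → ℂ) (T : ℝ) :
    Vv k φ K T = T * ∫ x in Ioi (0:ℝ), ‖Ax k φ K T x‖ ^ 2 / x := by
  unfold Vv
  rw [exp_cv (fun x => ‖Ax k φ K T x‖ ^ 2)]
  simp_rw [Ax_exp]

theorem Ax_int {φ : ℝ → ℝ} (h : TS (cx φ)) (k : ℕ) {K : ℝ → ℂ} (hK : Dec K) {T : ℝ} (hT : 1 < T) :
    IntegrableOn (fun x => ‖Ax k φ K T x‖ ^ 2 / x) (Ioi (0:ℝ)) := by
  refine exp_int (fun x => ‖Ax k φ K T x‖ ^ 2) ?_
  simp_rw [Ax_exp]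
  exact (Sv_fin h k hK hT).1.sq

end

end Pool.Agent.K4H6.SV
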